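import Pool.Agent.Y806.SP.H

/-!
# Random polynomials: the parameters
-/

set_option autoImplicit false

namespace Pool.Agent.Y806.SP

open Finset

/-- the number of sets with at most `D` elements -/
theorem small_sets {β : Type*} [DecidableEq β] [Fintype β] (D : ℕ) :
    (univ.filter fun S : Finset β => S.card ≤ D).card ≤ (Fintype.card β + 1) ^ D := by
  have h1 : (univ.filter fun S : Finset β => S.card ≤ D).card =
      ∑ i ∈ range (Fintype.card β + 1), (Fintype.card β).choose i * (if i ≤ D then 1 else 0) := by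
    have h2 := sum_powerset_apply_card (fun i => if i ≤ D then 1 else 0) (x := (univ : Finset β))
    rw [card_filter]
    rw [powerset_univ] at h2
    rw [h2, card_univ]
    refine sum_congr rfl fun i _ => ?_
    rw [smul_eq_mul]
  rw [h1]
  have h3 : (Fintype.card β + 1) ^ D = ∑ i ∈ range (D + 1), (Fintype.card β) ^ i * D.choose i := by
    have := add_pow (Fintype.card β) 1 D
    simpa using this
  rw [h3]
  have h4 : ∑ i ∈ range (Fintype.card β + 1), (Fintype.card β).choose i * (if i ≤ D then 1 else 0) =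
      ∑ i ∈ (range (Fintype.card β + 1)).filter (fun i => i ≤ D), (Fintype.card β).choose i := by
    rw [sum_filter]
    refine sum_congr rfl fun i _ => ?_
    split_ifs <;> simp
  rw [h4]
  calc ∑ i ∈ (range (Fintype.card β + 1)).filter (fun i => i ≤ D), (Fintype.card β).choose i
      ≤ ∑ i ∈ range (D + 1), (Fintype.card β).choose i := by
        refine sum_le_sum_of_subset fun i hi => ?_
        exact mem_range.2 (Nat.lt_succ_of_le (mem_filter.1 hi).2)
    _ ≤ ∑ i ∈ range (D + 1), (Fintype.card β) ^ i * D.choose i := by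
        refine sum_le_sum fun i hi => ?_
        have h5 : 0 < D.choose i := Nat.choose_pos (Nat.lt_succ_iff.1 (mem_range.1 hi))
        calc (Fintype.card β).choose i ≤ (Fintype.card β) ^ i * 1 := by
              rw [mul_one]; exact Nat.choose_le_pow _ _
          _ ≤ _ := Nat.mul_le_mul_left _ h5

theorem monos_le {m p D : ℕ} (c : Finset (Fin m) → Finset (Fin m) → ZMod p)
    (hc : ∀ A B, c A B ≠ 0 → A.card + B.card ≤ D) : monos c ≤ (2 * m + 1) ^ D := by
  classical
  have h1 := small_sets (β := Fin m ⊕ Fin m) D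
  rw [Fintype.card_sum, Fintype.card_fin] at h1
  have h2 : m + m + 1 = 2 * m + 1 := by ring
  rw [h2] at h1
  refine le_trans ?_ h1
  unfold monos
  refine card_le_card_of_injOn (fun q => q.1.disjSum q.2) ?_ ?_
  · intro q hq
    refine mem_coe.2 (mem_filter.2 ⟨mem_univ _, ?_⟩)
    rw [card_disjSum]
    exact hc _ _ (mem_filter.1 (mem_coe.1 hq)).2
  · intro x _ y _ h
    have h1 := disjSum_inj.1 h
    exact Prod.ext h1.1 h1.2

theorem card_low (p : ℕ) [NeZero p] :
    (univ.filter fun v : ZMod p => 2 * v.val < p).card = (p + 1) / 2 := by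
  have h1 : (univ.filter fun v : ZMod p => 2 * v.val < p).card =
      ((range p).filter fun i => 2 * i < p).card := by
    refine card_bij' (fun v _ => v.val) (fun i _ => (i : ZMod p)) ?_ ?_ ?_ ?_
    · intro v hv
      exact mem_filter.2 ⟨mem_range.2 (ZMod.val_lt v), (mem_filter.1 hv).2⟩
    · intro i hi
      obtain ⟨h1, h2⟩ := mem_filter.1 hi
      refine mem_filter.2 ⟨mem_univ _, ?_⟩
      rw [ZMod.val_natCast_of_lt (mem_range.1 h1)]
      exact h2
    · intro v _
      exact ZMod.natCast_zmod_val v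
    · intro i hi
      exact ZMod.val_natCast_of_lt (mem_range.1 (mem_filter.1 hi).1)
  rw [h1]
  have h2 : (range p).filter (fun i => 2 * i < p) = range ((p + 1) / 2) := by
    ext i
    rw [mem_filter, mem_range, mem_range]
    have : p ≠ 0 := NeZero.ne p
    omega
  rw [h2, card_range]

theorem card_high (p : ℕ) [NeZero p] :
    (univ.filter fun v : ZMod p => ¬ 2 * v.val < p).card = p - (p + 1) / 2 := by
  have h1 := card_filter_add_card_filter_not (s := (univ : Finset (ZMod p)))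
    (fun v => 2 * v.val < p)
  rw [card_univ, ZMod.card, card_low] at h1
  omega

theorem three_pow_gt (m : ℕ) (hm : 3 ≤ m) :
    2 * 2 ^ (4 * m * m) * 2 ^ (4 * m * (4 * m - 1) / 2) < 3 ^ (4 * m * (4 * m - 1) / 2) := by
  have hE : 4 * m * (4 * m - 1) / 2 = 2 * m * (4 * m - 1) := by
    have : 4 * m * (4 * m - 1) = 2 * (2 * m * (4 * m - 1)) := by ring
    rw [this, Nat.mul_div_cancel_left _ (by norm_num)]
  rw [hE]
  set E := 2 * m * (4 * m - 1) with hEdef
  have hE8 : E + 2 * m = 8 * m * m := by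
    rw [hEdef]
    have h1 : 4 * m - 1 + 1 = 4 * m := by omega
    calc 2 * m * (4 * m - 1) + 2 * m = 2 * m * (4 * m - 1 + 1) := by ring
      _ = 8 * m * m := by rw [h1]; ring
  have h1 : 2 * 2 ^ (4 * m * m) * 2 ^ E = 2 ^ (1 + 4 * m * m + E) := by
    rw [pow_add, pow_add, pow_one]
  rw [h1]
  have hEpos : 0 < E := by
    have : 0 < m * m := by positivity
    nlinarith
  have h2 : (2 ^ (1 + 4 * m * m + E)) ^ 12 < (3 ^ E) ^ 12 := by
    have h3 : (3 ^ E) ^ 12 = (3 ^ 12) ^ E := by rw [← pow_mul, ← pow_mul, mul_comm]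
    have h4 : ((2 : ℕ) ^ 19) ^ E < (3 ^ 12) ^ E := Nat.pow_lt_pow_left (by norm_num) hEpos.ne'
    rw [h3]
    refine lt_of_le_of_lt ?_ h4
    rw [← pow_mul, ← pow_mul]
    refine Nat.pow_le_pow_right (by norm_num) ?_
    nlinarith
  exact lt_of_pow_lt_pow_left₀ 12 (by positivity) h2

theorem log_bound (m : ℕ) : m * m < 2 ^ (2 * Nat.log 2 m + 2) := by
  have h1 : m < 2 ^ (Nat.log 2 m + 1) := Nat.lt_pow_succ_log_self (by norm_num) m
  have h2 : (2 : ℕ) ^ (2 * Nat.log 2 m + 2) = 2 ^ (Nat.log 2 m + 1) * 2 ^ (Nat.log 2 m + 1) := by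
    rw [← pow_add]; congr 1; ring
  rw [h2]
  exact Nat.mul_lt_mul'' h1 h1

/-- **Every modulus.** -/
theorem ramsey_poly (m p : ℕ) (hm : 1 ≤ m) (hp : p.Prime) :
    ∃ c : Finset (Fin m) → Finset (Fin m) → ZMod p, (∀ A B, c A B = c B A) ∧
      (∀ A B, c A B ≠ 0 → A.card + B.card ≤ 2 * Nat.log 2 m + 5) ∧
      ∀ H : Finset (Finset (Fin m)), 4 * m ≤ H.card →
        ¬ (∀ X ∈ H, ∀ Y ∈ H, X ≠ Y → 2 * (pv c X Y).val < p) ∧
        ¬ (∀ X ∈ H, ∀ Y ∈ H, X ≠ Y → ¬ 2 * (pv c X Y).val < p) := by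
  classical
  have : Fact p.Prime := ⟨hp⟩
  have hD : 4 * m * (4 * m - 1) < 2 ^ (2 * Nat.log 2 m + 5 + 1) := by
    have h1 := log_bound m
    have h2 : (2 : ℕ) ^ (2 * Nat.log 2 m + 5 + 1) = 16 * 2 ^ (2 * Nat.log 2 m + 2) := by
      rw [show 2 * Nat.log 2 m + 5 + 1 = 4 + (2 * Nat.log 2 m + 2) by ring, pow_add]
      norm_num
    have h3 : 4 * m * (4 * m - 1) ≤ 4 * m * (4 * m) := Nat.mul_le_mul_left _ (Nat.sub_le _ _)
    nlinarith
  obtain ⟨c, h1, h2, h3⟩ := random_poly (p := p) m (4 * m) (2 * Nat.log 2 m + 5) hD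
    (univ.filter fun v : ZMod p => 2 * v.val < p) (univ.filter fun v : ZMod p => ¬ 2 * v.val < p)
    (by
      rw [card_low, card_high]
      set E := 4 * m * (4 * m - 1) / 2 with hE
      by_cases hm3 : m < 3
      · have h0 : (2 ^ m).choose (4 * m) = 0 := by
          apply Nat.choose_eq_zero_of_lt
          interval_cases m <;> norm_num
        rw [h0, zero_mul]
        exact Nat.pos_of_ne_zero (pow_ne_zero _ hp.ne_zero)
      · push Not at hm3
        have hlt := three_pow_gt m hm3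
        rw [← hE] at hlt
        have hp2 := hp.two_le
        have ha : 3 * ((p + 1) / 2) ≤ 2 * p := by
          rcases Nat.lt_or_ge p 3 with h | h
          · have : p = 2 := by omega
            subst this; norm_num
          · omega
        have hb : 3 * (p - (p + 1) / 2) ≤ 2 * p := by omega
        have ha' : 3 ^ E * ((p + 1) / 2) ^ E ≤ 2 ^ E * p ^ E := by
          rw [← mul_pow, ← mul_pow]; exact Nat.pow_le_pow_left ha E
        have hb' : 3 ^ E * (p - (p + 1) / 2) ^ E ≤ 2 ^ E * p ^ E := by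
          rw [← mul_pow, ← mul_pow]; exact Nat.pow_le_pow_left hb E
        have hch : (2 ^ m).choose (4 * m) ≤ 2 ^ (4 * m * m) := by
          refine (Nat.choose_le_pow _ _).trans (le_of_eq ?_)
          rw [← pow_mul]; congr 1; ring
        have hpE : 0 < p ^ E := Nat.pos_of_ne_zero (pow_ne_zero _ hp.ne_zero)
        have h3E : 0 < 3 ^ E := by positivity
        have hfin : 3 ^ E * ((2 ^ m).choose (4 * m) * (((p + 1) / 2) ^ E + (p - (p + 1) / 2) ^ E)) <
            3 ^ E * p ^ E := by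
          calc 3 ^ E * ((2 ^ m).choose (4 * m) * (((p + 1) / 2) ^ E + (p - (p + 1) / 2) ^ E))
              = (2 ^ m).choose (4 * m) * (3 ^ E * ((p + 1) / 2) ^ E +
                3 ^ E * (p - (p + 1) / 2) ^ E) := by ring
            _ ≤ 2 ^ (4 * m * m) * (2 ^ E * p ^ E + 2 ^ E * p ^ E) :=
                Nat.mul_le_mul hch (add_le_add ha' hb')
            _ = (2 * 2 ^ (4 * m * m) * 2 ^ E) * p ^ E := by ring
            _ < 3 ^ E * p ^ E := Nat.mul_lt_mul_of_pos_right hlt hpE
        exact Nat.lt_of_mul_lt_mul_left hfin)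
  refine ⟨c, h1, h2, fun H hH => ⟨fun h => (h3 H hH).1 ?_, fun h => (h3 H hH).2 ?_⟩⟩
  · intro X hX Y hY hXY
    exact mem_filter.2 ⟨mem_univ _, h X hX Y hY hXY⟩
  · intro X hX Y hY hXY
    exact mem_filter.2 ⟨mem_univ _, h X hX Y hY hXY⟩

theorem fact_gt (m : ℕ) (hm : 2 ≤ m) : 2 ^ (m + 1) < (2 * m).factorial := by
  induction m, hm using Nat.le_induction with
  | base => decide
  | succ n hn ih =>
    have h1 : (2 * (n + 1)).factorial = (2 * n + 2) * ((2 * n + 1) * (2 * n).factorial) := by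
      rw [show 2 * (n + 1) = 2 * n + 1 + 1 by ring, Nat.factorial_succ, Nat.factorial_succ]
    rw [h1, pow_succ]
    have h2 : 0 < (2 * n).factorial := Nat.factorial_pos _
    nlinarith [Nat.mul_le_mul (show 2 ≤ 2 * n + 2 by omega)
      (Nat.mul_le_mul_right (2 * n).factorial (show 1 ≤ 2 * n + 1 by omega))]

/-- **Modulus two.** -/
theorem ramsey_poly_two (m : ℕ) (hm : 2 ≤ m) :
    ∃ c : Finset (Fin m) → Finset (Fin m) → ZMod 2, (∀ A B, c A B = c B A) ∧
      (∀ A B, c A B ≠ 0 → A.card + B.card ≤ 2 * Nat.log 2 m + 3) ∧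
      ∀ H : Finset (Finset (Fin m)), 2 * m ≤ H.card →
        ¬ (∀ X ∈ H, ∀ Y ∈ H, X ≠ Y → pv c X Y = 0) ∧
        ¬ (∀ X ∈ H, ∀ Y ∈ H, X ≠ Y → pv c X Y = 1) := by
  classical
  have : Fact (Nat.Prime 2) := ⟨Nat.prime_two⟩
  have hD : 2 * m * (2 * m - 1) < 2 ^ (2 * Nat.log 2 m + 3 + 1) := by
    have h1 := log_bound m
    have h2 : (2 : ℕ) ^ (2 * Nat.log 2 m + 3 + 1) = 4 * 2 ^ (2 * Nat.log 2 m + 2) := by
      rw [show 2 * Nat.log 2 m + 3 + 1 = 2 + (2 * Nat.log 2 m + 2) by ring, pow_add]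
      norm_num
    have h3 : 2 * m * (2 * m - 1) ≤ 2 * m * (2 * m) := Nat.mul_le_mul_left _ (Nat.sub_le _ _)
    nlinarith
  obtain ⟨c, h1, h2, h3⟩ := random_poly (p := 2) m (2 * m) (2 * Nat.log 2 m + 3) hD
    ({0} : Finset (ZMod 2)) ({1} : Finset (ZMod 2))
    (by
      rw [card_singleton, card_singleton, one_pow]
      have hE : 2 * m * (2 * m - 1) / 2 = m * (2 * m - 1) := by
        have : 2 * m * (2 * m - 1) = 2 * (m * (2 * m - 1)) := by ring
        rw [this, Nat.mul_div_cancel_left _ (by norm_num)]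
      rw [hE]
      set E := m * (2 * m - 1) with hEdef
      have hE8 : E + m = 2 * m * m := by
        rw [hEdef]
        have h1 : 2 * m - 1 + 1 = 2 * m := by omega
        calc m * (2 * m - 1) + m = m * (2 * m - 1 + 1) := by ring
          _ = 2 * m * m := by rw [h1]; ring
      have h4 : (2 ^ m).choose (2 * m) * (2 * m).factorial ≤ 2 ^ (2 * m * m) := by
        have h5 : (2 ^ m).choose (2 * m) * (2 * m).factorial = (2 ^ m).descFactorial (2 * m) := by
          rw [Nat.descFactorial_eq_factorial_mul_choose, mul_comm]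
        rw [h5]
        refine (Nat.descFactorial_le_pow _ _).trans (le_of_eq ?_)
        rw [← pow_mul]; congr 1; ring
      have h5 := fact_gt m hm
      have h6 : (2 : ℕ) ^ (2 * m * m) = 2 ^ E * 2 ^ m := by rw [← pow_add, hE8]
      rw [h6] at h4
      by_contra hcon
      push Not at hcon
      have h7 : 2 ^ E * 2 ^ (m + 1) < 2 ^ E * (2 * m).factorial :=
        Nat.mul_lt_mul_of_pos_left h5 (by positivity)
      have h8 : 2 ^ E * (2 * m).factorial ≤ (2 ^ m).choose (2 * m) * (1 + 1) * (2 * m).factorial :=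
        Nat.mul_le_mul_right _ hcon
      have h9 : (2 ^ m).choose (2 * m) * (1 + 1) * (2 * m).factorial ≤ 2 * (2 ^ E * 2 ^ m) := by
        calc (2 ^ m).choose (2 * m) * (1 + 1) * (2 * m).factorial =
            2 * ((2 ^ m).choose (2 * m) * (2 * m).factorial) := by ring
          _ ≤ _ := Nat.mul_le_mul_left _ h4
      have h10 : 2 * (2 ^ E * 2 ^ m) = 2 ^ E * 2 ^ (m + 1) := by rw [pow_succ]; ring
      omega)
  refine ⟨c, h1, h2, fun H hH => ⟨fun h => (h3 H hH).1 ?_, fun h => (h3 H hH).2 ?_⟩⟩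
  · intro X hX Y hY hXY
    rw [mem_singleton]
    exact h X hX Y hY hXY
  · intro X hX Y hY hXY
    rw [mem_singleton]
    exact h X hX Y hY hXY

end Pool.Agent.Y806.SP
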