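import Mathlib

/-!
# Polynomial equations modulo `p` in bits: a nonzero solution
-/

set_option autoImplicit false

namespace Pool.Agent.Y806.SP

open Finset

/-- Equations `∑_{S ⊆ Z} a k S = 0` without constant term, of degree at most `d`, in the bits of
`U`: if there are few of them, they have a nonempty solution `Z ⊆ U`. -/
theorem bool_cw {α κ : Type*} [DecidableEq α] {p : ℕ} [Fact p.Prime] (K : Finset κ)
    (a : κ → Finset α → ZMod p) (d : ℕ) (U : Finset α)
    (h0 : ∀ k ∈ K, a k ∅ = 0) (hd : ∀ k ∈ K, ∀ S, a k S ≠ 0 → S.card ≤ d)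
    (hc : K.card * ((p - 1) * d) < U.card) :
    ∃ Z ⊆ U, Z.Nonempty ∧ ∀ k ∈ K, ∑ S ∈ Z.powerset, a k S = 0 := by
  classical
  have hp : p.Prime := Fact.out
  -- the polynomials
  let P : κ → MvPolynomial U (ZMod p) := fun k =>
    ∑ S ∈ U.powerset, MvPolynomial.C (a k S) *
      ∏ i ∈ univ.filter (fun i : U => (i : α) ∈ S),
        (MvPolynomial.X i : MvPolynomial U (ZMod p)) ^ (p - 1)
  have hdeg : ∀ k ∈ K, (P k).totalDegree ≤ (p - 1) * d := by
    intro k hk
    refine MvPolynomial.totalDegree_finsetSum_le ?_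
    intro S hS
    by_cases h : a k S = 0
    · simp [h]
    · have hSd := hd k hk S h
      refine (MvPolynomial.totalDegree_mul _ _).trans ?_
      rw [MvPolynomial.totalDegree_C, zero_add]
      refine (MvPolynomial.totalDegree_finsetProd _ _).trans ?_
      calc ∑ i ∈ univ.filter (fun i : U => (i : α) ∈ S),
            (MvPolynomial.X (R := ZMod p) i ^ (p - 1)).totalDegree
          ≤ ∑ i ∈ univ.filter (fun i : U => (i : α) ∈ S), (p - 1) := by
            refine sum_le_sum fun i _ => ?_
            refine (MvPolynomial.totalDegree_pow _ _).trans ?_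
            rw [MvPolynomial.totalDegree_X, mul_one]
        _ = (univ.filter (fun i : U => (i : α) ∈ S)).card * (p - 1) := by
            rw [sum_const, smul_eq_mul]
        _ ≤ (p - 1) * d := by
            rw [mul_comm]
            refine Nat.mul_le_mul_left _ (le_trans ?_ hSd)
            refine card_le_card_of_injOn (fun i => (i : α)) ?_ ?_
            · intro i hi
              simpa using hi
            · intro i _ j _ hij
              exact Subtype.ext hij
  have hsum : (∑ k ∈ K, (P k).totalDegree) < Fintype.card U := by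
    rw [Fintype.card_coe]
    refine lt_of_le_of_lt ?_ hc
    refine (sum_le_sum hdeg).trans ?_
    rw [sum_const, smul_eq_mul]
  have hdvd := char_dvd_card_solutions_of_sum_lt (K := ZMod p) (σ := U) p hsum
  -- evaluation
  have hev : ∀ (v : U → ZMod p) (k : κ), MvPolynomial.eval v (P k) =
      ∑ S ∈ (((univ : Finset U).filter (fun i => v i ≠ 0)).map
        (Function.Embedding.subtype _)).powerset, a k S := by
    intro v k
    set Z : Finset α := ((univ : Finset U).filter (fun i => v i ≠ 0)).map
        (Function.Embedding.subtype _) with hZ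
    have hZU : Z ⊆ U := by
      intro i hi
      rw [hZ, mem_map] at hi
      obtain ⟨j, _, rfl⟩ := hi
      exact j.2
    have hmem : ∀ i : U, (i : α) ∈ Z ↔ v i ≠ 0 := by
      intro i
      rw [hZ, mem_map]
      constructor
      · rintro ⟨j, hj, hji⟩
        have : j = i := Subtype.ext hji
        rw [← this]; exact (mem_filter.1 hj).2
      · intro h
        exact ⟨i, mem_filter.2 ⟨mem_univ _, h⟩, rfl⟩
    simp only [P]
    rw [map_sum]
    rw [← sum_subset (powerset_mono.2 hZU)]
    · refine sum_congr rfl fun S hS => ?_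
      rw [mem_powerset] at hS
      rw [map_mul, MvPolynomial.eval_C, map_prod]
      rw [prod_eq_one, mul_one]
      intro i hi
      rw [mem_filter] at hi
      rw [map_pow, MvPolynomial.eval_X]
      exact ZMod.pow_card_sub_one_eq_one ((hmem i).1 (hS hi.2))
    · intro S hS hSZ
      rw [mem_powerset] at hS hSZ
      obtain ⟨i, hiS, hiZ⟩ := not_subset.1 hSZ
      have hvi : v ⟨i, hS hiS⟩ = 0 := by
        by_contra h
        exact hiZ ((hmem ⟨i, hS hiS⟩).2 h)
      rw [map_mul, map_prod]
      refine mul_eq_zero_of_right _ (prod_eq_zero (i := ⟨i, hS hiS⟩) ?_ ?_)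
      · exact mem_filter.2 ⟨mem_univ _, hiS⟩
      · rw [map_pow, MvPolynomial.eval_X, hvi]
        exact zero_pow (Nat.sub_ne_zero_of_lt hp.one_lt)
  -- the zero solution
  have hz : ∀ k ∈ K, MvPolynomial.eval (0 : U → ZMod p) (P k) = 0 := by
    intro k hk
    rw [hev]
    have : ((univ : Finset U).filter (fun i => (0 : U → ZMod p) i ≠ 0)) = ∅ := by
      simp
    rw [this, map_empty, powerset_empty, sum_singleton, h0 k hk]
  -- a second solution
  have hcard : 1 < Fintype.card {x : U → ZMod p // ∀ k ∈ K, MvPolynomial.eval x (P k) = 0} := by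
    have hpos : 0 < Fintype.card {x : U → ZMod p // ∀ k ∈ K, MvPolynomial.eval x (P k) = 0} :=
      Fintype.card_pos_iff.2 ⟨⟨0, hz⟩⟩
    exact lt_of_lt_of_le hp.one_lt (Nat.le_of_dvd hpos hdvd)
  obtain ⟨v, hv⟩ := Fintype.exists_ne_of_one_lt_card hcard ⟨0, hz⟩
  have hv0 : v.1 ≠ 0 := fun h => hv (Subtype.ext h)
  refine ⟨((univ : Finset U).filter (fun i => v.1 i ≠ 0)).map
        (Function.Embedding.subtype _), ?_, ?_, ?_⟩
  · intro i hi
    rw [mem_map] at hi
    obtain ⟨j, _, rfl⟩ := hi
    exact j.2
  · obtain ⟨i, hi⟩ := Function.ne_iff.1 hv0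
    exact ⟨i, mem_map.2 ⟨i, mem_filter.2 ⟨mem_univ _, hi⟩, rfl⟩⟩
  · intro k hk
    rw [← hev]
    exact v.2 k hk

end Pool.Agent.Y806.SP
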