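import Pool.Agent.Y806.SP.A

/-!
# Blocks of coordinates on which a polynomial of low degree is constant
-/

set_option autoImplicit false

namespace Pool.Agent.Y806.SP

open Finset

/-- The value at the pair of bit strings `X`, `Y` (given as sets of coordinates) of the polynomial
`∑ c A B ∏_{i ∈ A} x_i ∏_{i ∈ B} y_i`. -/
def pv {α : Type*} {p : ℕ} (c : Finset α → Finset α → ZMod p) (X Y : Finset α) : ZMod p :=
  ∑ A ∈ X.powerset, ∑ B ∈ Y.powerset, c A B

section

variable {α : Type*} [DecidableEq α] [Fintype α] {p : ℕ}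

theorem pv_eq (c : Finset α → Finset α → ZMod p) (X Y : Finset α) :
    pv c X Y = ∑ q : Finset α × Finset α, if q.1 ⊆ X ∧ q.2 ⊆ Y then c q.1 q.2 else 0 := by
  rw [← sum_filter]
  unfold pv
  rw [← sum_product']
  refine sum_congr ?_ fun _ _ => rfl
  ext q
  simp [mem_product]

/-- the union of the blocks with labels in `I` -/
def blk (b : α → ℕ) (I : Finset ℕ) : Finset α := univ.filter fun i => b i ∈ I

theorem mem_blk {b : α → ℕ} {I : Finset ℕ} {i : α} : i ∈ blk b I ↔ b i ∈ I := by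
  simp [blk]

/-- inclusion and exclusion -/
theorem incl_excl (c : Finset α → Finset α → ZMod p) (d : ℕ)
    (hd : ∀ A B, c A B ≠ 0 → (A ∪ B).card ≤ d) (b : α → ℕ) (I J : Finset ℕ)
    (hIJ : d < (I ∪ J).card) :
    ∑ K ∈ (I ∪ J).powerset, (-1 : ZMod p) ^ K.card * pv c (blk b (I \ K)) (blk b (J \ K)) = 0 := by
  have h1 : ∀ K ∈ (I ∪ J).powerset,
      (-1 : ZMod p) ^ K.card * pv c (blk b (I \ K)) (blk b (J \ K)) =
      ∑ q : Finset α × Finset α,
        if q.1 ⊆ blk b I ∧ q.2 ⊆ blk b J ∧ Disjoint K ((q.1 ∪ q.2).image b) then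
          (-1 : ZMod p) ^ K.card * c q.1 q.2 else 0 := by
    intro K _
    rw [pv_eq, mul_sum]
    refine sum_congr rfl fun q _ => ?_
    have : (q.1 ⊆ blk b (I \ K) ∧ q.2 ⊆ blk b (J \ K)) ↔
        (q.1 ⊆ blk b I ∧ q.2 ⊆ blk b J ∧ Disjoint K ((q.1 ∪ q.2).image b)) := by
      constructor
      · rintro ⟨h1, h2⟩
        refine ⟨fun i hi => ?_, fun i hi => ?_, ?_⟩
        · exact mem_blk.2 (mem_sdiff.1 (mem_blk.1 (h1 hi))).1
        · exact mem_blk.2 (mem_sdiff.1 (mem_blk.1 (h2 hi))).1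
        · rw [disjoint_left]
          intro k hk hk2
          obtain ⟨i, hi, rfl⟩ := mem_image.1 hk2
          rcases mem_union.1 hi with hi | hi
          · exact (mem_sdiff.1 (mem_blk.1 (h1 hi))).2 hk
          · exact (mem_sdiff.1 (mem_blk.1 (h2 hi))).2 hk
      · rintro ⟨h1, h2, h3⟩
        rw [disjoint_left] at h3
        refine ⟨fun i hi => ?_, fun i hi => ?_⟩
        · refine mem_blk.2 (mem_sdiff.2 ⟨mem_blk.1 (h1 hi), fun hk => h3 hk ?_⟩)
          exact mem_image.2 ⟨i, mem_union_left _ hi, rfl⟩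
        · refine mem_blk.2 (mem_sdiff.2 ⟨mem_blk.1 (h2 hi), fun hk => h3 hk ?_⟩)
          exact mem_image.2 ⟨i, mem_union_right _ hi, rfl⟩
    simp only [this]
    split_ifs <;> simp
  rw [sum_congr rfl h1, sum_comm]
  refine sum_eq_zero fun q _ => ?_
  by_cases hq : q.1 ⊆ blk b I ∧ q.2 ⊆ blk b J
  swap
  · refine sum_eq_zero fun K _ => ?_
    rw [if_neg]
    rintro ⟨h1, h2, _⟩
    exact hq ⟨h1, h2⟩
  by_cases hc : c q.1 q.2 = 0
  · refine sum_eq_zero fun K _ => ?_
    rw [hc]; simp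
  have hcard := hd _ _ hc
  have h2 : ∀ K ∈ (I ∪ J).powerset,
      (if q.1 ⊆ blk b I ∧ q.2 ⊆ blk b J ∧ Disjoint K ((q.1 ∪ q.2).image b) then
          (-1 : ZMod p) ^ K.card * c q.1 q.2 else 0) =
      (if Disjoint K ((q.1 ∪ q.2).image b) then (-1 : ZMod p) ^ K.card else 0) * c q.1 q.2 := by
    intro K _
    by_cases h : Disjoint K ((q.1 ∪ q.2).image b)
    · rw [if_pos ⟨hq.1, hq.2, h⟩, if_pos h]
    · rw [if_neg (fun h' => h h'.2.2), if_neg h, zero_mul]
  rw [sum_congr rfl h2, ← sum_mul]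
  have h3 : ∑ K ∈ (I ∪ J).powerset,
      (if Disjoint K ((q.1 ∪ q.2).image b) then (-1 : ZMod p) ^ K.card else 0) = 0 := by
    rw [← sum_filter]
    have h4 : (I ∪ J).powerset.filter (fun K => Disjoint K ((q.1 ∪ q.2).image b)) =
        ((I ∪ J) \ ((q.1 ∪ q.2).image b)).powerset := by
      ext K
      rw [mem_filter, mem_powerset, mem_powerset, subset_sdiff]
    rw [h4]
    have hne : ((I ∪ J) \ ((q.1 ∪ q.2).image b)).Nonempty := by
      rw [← card_pos]
      have h5 := le_card_sdiff ((q.1 ∪ q.2).image b) (I ∪ J)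
      have h6 : ((q.1 ∪ q.2).image b).card ≤ (q.1 ∪ q.2).card := card_image_le
      omega
    have h7 := sum_powerset_neg_one_pow_card_of_nonempty hne
    have h8 := congrArg (fun z : ℤ => (z : ZMod p)) h7
    push_cast at h8
    exact h8
  rw [h3, zero_mul]

/-- a polynomial of low degree is constant if it is constant on the pairs with few labels -/
theorem const_of_few (c : Finset α → Finset α → ZMod p) (d : ℕ)
    (hd : ∀ A B, c A B ≠ 0 → (A ∪ B).card ≤ d) (b : α → ℕ) (R : Finset ℕ) (v : ZMod p)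
    (h : ∀ I ⊆ R, ∀ J ⊆ R, (I ∪ J).card ≤ d → pv c (blk b I) (blk b J) = v) :
    ∀ I ⊆ R, ∀ J ⊆ R, pv c (blk b I) (blk b J) = v := by
  suffices hs : ∀ n : ℕ, ∀ I ⊆ R, ∀ J ⊆ R, (I ∪ J).card = n → pv c (blk b I) (blk b J) = v from
    fun I hI J hJ => hs _ I hI J hJ rfl
  intro n
  induction n using Nat.strong_induction_on with
  | _ n ih =>
    intro I hI J hJ hn
    by_cases hle : (I ∪ J).card ≤ d
    · exact h I hI J hJ hle
    · push Not at hle
      have h1 := incl_excl c d hd b I J hle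
      have hne : (I ∪ J).Nonempty := by rw [← card_pos]; omega
      have h2 : ∑ K ∈ (I ∪ J).powerset, (-1 : ZMod p) ^ K.card * v = 0 := by
        rw [← sum_mul]
        have h7 := sum_powerset_neg_one_pow_card_of_nonempty hne
        have h8 := congrArg (fun z : ℤ => (z : ZMod p)) h7
        push_cast at h8
        rw [h8, zero_mul]
      have h3 : ∑ K ∈ (I ∪ J).powerset,
          ((-1 : ZMod p) ^ K.card * (pv c (blk b (I \ K)) (blk b (J \ K)) - v)) = 0 := by
        simp only [mul_sub, sum_sub_distrib]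
        rw [h1, h2, sub_zero]
      rw [sum_eq_single (∅ : Finset ℕ)] at h3
      · simp only [card_empty, pow_zero, one_mul, sdiff_empty] at h3
        exact sub_eq_zero.1 h3
      · intro K hK hK0
        rw [mem_powerset] at hK
        have h4 : (I \ K) ∪ (J \ K) = (I ∪ J) \ K := (union_sdiff_distrib I J K).symm
        have h5 : ((I \ K) ∪ (J \ K)).card < n := by
          rw [h4, card_sdiff_of_subset hK, ← hn]
          have h6 : 0 < K.card := card_pos.2 (nonempty_iff_ne_empty.2 hK0)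
          have h7 := card_le_card hK
          omega
        rw [ih _ h5 (I \ K) (sdiff_subset.trans hI) (J \ K) (sdiff_subset.trans hJ) rfl, sub_self,
          mul_zero]
      · intro h5
        exact absurd (empty_mem_powerset _) h5

/-- a polynomial restricted to fresh coordinates -/
theorem restrict_coeff (c : Finset α → Finset α → ZMod p) (d : ℕ)
    (hd : ∀ A B, c A B ≠ 0 → (A ∪ B).card ≤ d) (V X Y E1 E2 : Finset α)
    (hX : Disjoint X V) (hY : Disjoint Y V) (hE1 : E1 ⊆ V) (hE2 : E2 ⊆ V) :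
    ∃ a : Finset α → ZMod p, (∀ S, a S ≠ 0 → S.card ≤ d) ∧
      ∀ Z ⊆ V, ∑ S ∈ Z.powerset, a S = pv c (X ∪ (E1 ∩ Z)) (Y ∪ (E2 ∩ Z)) := by
  refine ⟨fun S => ∑ q : Finset α × Finset α,
    if (q.1 ⊆ X ∪ E1 ∧ q.2 ⊆ Y ∪ E2) ∧ (q.1 ∪ q.2) ∩ V = S then c q.1 q.2 else 0, ?_, ?_⟩
  · intro S hS
    obtain ⟨q, _, hq⟩ := exists_ne_zero_of_sum_ne_zero hS
    by_cases h : (q.1 ⊆ X ∪ E1 ∧ q.2 ⊆ Y ∪ E2) ∧ (q.1 ∪ q.2) ∩ V = S
    · rw [if_pos h] at hq
      rw [← h.2]
      exact (card_le_card inter_subset_left).trans (hd _ _ hq)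
    · rw [if_neg h] at hq
      exact absurd rfl hq
  · intro Z hZ
    rw [pv_eq, sum_comm]
    refine sum_congr rfl fun q _ => ?_
    have hiff : ((q.1 ⊆ X ∪ E1 ∧ q.2 ⊆ Y ∪ E2) ∧ (q.1 ∪ q.2) ∩ V ⊆ Z) ↔
        (q.1 ⊆ X ∪ (E1 ∩ Z) ∧ q.2 ⊆ Y ∪ (E2 ∩ Z)) := by
      constructor
      · rintro ⟨⟨h1, h2⟩, h3⟩
        refine ⟨fun i hi => ?_, fun i hi => ?_⟩
        · rcases mem_union.1 (h1 hi) with h | h
          · exact mem_union_left _ h
          · exact mem_union_right _ (mem_inter.2 ⟨h, h3 (mem_inter.2 ⟨mem_union_left _ hi, hE1 h⟩)⟩)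
        · rcases mem_union.1 (h2 hi) with h | h
          · exact mem_union_left _ h
          · exact mem_union_right _ (mem_inter.2 ⟨h, h3 (mem_inter.2 ⟨mem_union_right _ hi, hE2 h⟩)⟩)
      · rintro ⟨h1, h2⟩
        refine ⟨⟨fun i hi => ?_, fun i hi => ?_⟩, ?_⟩
        · rcases mem_union.1 (h1 hi) with h | h
          · exact mem_union_left _ h
          · exact mem_union_right _ (mem_inter.1 h).1
        · rcases mem_union.1 (h2 hi) with h | h
          · exact mem_union_left _ h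
          · exact mem_union_right _ (mem_inter.1 h).1
        · intro i hi
          obtain ⟨hi, hV⟩ := mem_inter.1 hi
          rcases mem_union.1 hi with hi | hi
          · rcases mem_union.1 (h1 hi) with h | h
            · exact absurd hV (disjoint_left.1 hX h)
            · exact (mem_inter.1 h).2
          · rcases mem_union.1 (h2 hi) with h | h
            · exact absurd hV (disjoint_left.1 hY h)
            · exact (mem_inter.1 h).2
    by_cases h : q.1 ⊆ X ∪ E1 ∧ q.2 ⊆ Y ∪ E2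
    · by_cases h3 : (q.1 ∪ q.2) ∩ V ⊆ Z
      · rw [if_pos (hiff.1 ⟨h, h3⟩), sum_eq_single ((q.1 ∪ q.2) ∩ V)]
        · rw [if_pos ⟨h, rfl⟩]
        · intro S _ hS
          rw [if_neg]
          rintro ⟨_, h4⟩
          exact hS h4.symm
        · intro h4
          exact absurd (mem_powerset.2 h3) h4
      · rw [if_neg (fun h4 => h3 (hiff.2 h4).2)]
        refine sum_eq_zero fun S hS => ?_
        rw [if_neg]
        rintro ⟨_, h4⟩
        rw [h4] at h3
        exact h3 (mem_powerset.1 hS)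
    · rw [if_neg (fun h4 => h (hiff.2 h4).1)]
      refine sum_eq_zero fun S _ => ?_
      rw [if_neg]
      rintro ⟨h4, _⟩
      exact h h4

end

end Pool.Agent.Y806.SP
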