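import Pool.Agent.Y806.SP.B

/-!
# Low degree: large homogeneous sets
-/

set_option autoImplicit false

namespace Pool.Agent.Y806.SP

open Finset

section

variable {α : Type*} [DecidableEq α] [Fintype α] {p : ℕ}

/-- the pairs of sets of labels below `j` with less than `d` labels -/
def prs (j d : ℕ) : Finset (Finset ℕ × Finset ℕ) :=
  ((range j).powerset ×ˢ (range j).powerset).filter fun q => (q.1 ∪ q.2).card < d

/-- adding a block -/
theorem step [Fact p.Prime] {r : ℕ} (c : Fin r → Finset α → Finset α → ZMod p) (d : ℕ)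
    (hd : ∀ k A B, c k A B ≠ 0 → (A ∪ B).card ≤ d) (v : Fin r → ZMod p) (b : α → ℕ) (j M : ℕ)
    (hM : j < M) (hb : ∀ i, b i < j ∨ b i = M) (V : Finset α) (hV : ∀ i ∈ V, b i = M)
    (hc : 3 * r * (prs j d).card * ((p - 1) * d) < V.card)
    (h : ∀ k, ∀ I ⊆ range j, ∀ J ⊆ range j, pv (c k) (blk b I) (blk b J) = v k) :
    ∃ Z ⊆ V, Z.Nonempty ∧ ∀ k, ∀ I ⊆ range (j + 1), ∀ J ⊆ range (j + 1),
      pv (c k) (blk (fun i => if i ∈ Z then j else b i) I)
        (blk (fun i => if i ∈ Z then j else b i) J) = v k := by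
  classical
  -- fresh coordinates
  have hdis : ∀ I ⊆ range j, Disjoint (blk b I) V := by
    intro I hI
    rw [disjoint_left]
    intro i hi hiV
    have h1 := hI (mem_blk.1 hi)
    rw [hV i hiV, mem_range] at h1
    omega
  -- the equations
  let E : Finset (Finset α × Finset α) := {(V, V), (V, ∅), (∅, V)}
  have hEV : ∀ e ∈ E, e.1 ⊆ V ∧ e.2 ⊆ V := by
    intro e he
    simp only [E, mem_insert, mem_singleton] at he
    rcases he with rfl | rfl | rfl <;> simp
  have hEc : E.card ≤ 3 := card_le_three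
  have hex : ∀ (k : Fin r) (q : Finset ℕ × Finset ℕ) (e : Finset α × Finset α),
      ∃ a : Finset α → ZMod p, (q ∈ prs j d → e ∈ E → (∀ S, a S ≠ 0 → S.card ≤ d) ∧
      ∀ Z ⊆ V, ∑ S ∈ Z.powerset, a S = pv (c k) (blk b q.1 ∪ (e.1 ∩ Z)) (blk b q.2 ∪ (e.2 ∩ Z))) := by
    intro k q e
    by_cases hq : q ∈ prs j d
    · by_cases he : e ∈ E
      · have hq' := mem_product.1 (mem_filter.1 hq).1
        obtain ⟨a, ha⟩ := restrict_coeff (c k) d (hd k) V (blk b q.1) (blk b q.2) e.1 e.2
          (hdis _ (mem_powerset.1 hq'.1)) (hdis _ (mem_powerset.1 hq'.2)) (hEV e he).1 (hEV e he).2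
        exact ⟨a, fun _ _ => ha⟩
      · exact ⟨0, fun _ h => absurd h he⟩
    · exact ⟨0, fun h => absurd h hq⟩
  choose a ha using hex
  let K : Finset (Fin r × (Finset ℕ × Finset ℕ) × (Finset α × Finset α)) :=
    (univ : Finset (Fin r)) ×ˢ (prs j d) ×ˢ E
  have hKc : K.card * ((p - 1) * d) < V.card := by
    refine lt_of_le_of_lt ?_ hc
    refine Nat.mul_le_mul_right _ ?_
    simp only [K, card_product, card_univ, Fintype.card_fin]
    calc r * ((prs j d).card * E.card) ≤ r * ((prs j d).card * 3) := by gcongr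
      _ = 3 * r * (prs j d).card := by ring
  have hK : ∀ x ∈ K, x.2.1 ∈ prs j d ∧ x.2.2 ∈ E := by
    intro x hx
    simp only [K, mem_product] at hx
    exact hx.2
  -- constant terms
  have hconst : ∀ x ∈ K, a x.1 x.2.1 x.2.2 ∅ = v x.1 := by
    intro x hx
    have hx' := hK x hx
    have h1 := (ha x.1 x.2.1 x.2.2 hx'.1 hx'.2).2 ∅ (empty_subset _)
    rw [powerset_empty, sum_singleton, inter_empty, inter_empty, union_empty, union_empty] at h1
    have hq' := mem_product.1 (mem_filter.1 hx'.1).1
    rw [h1]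
    exact h x.1 _ (mem_powerset.1 hq'.1) _ (mem_powerset.1 hq'.2)
  obtain ⟨Z, hZV, hZn, hZ⟩ := bool_cw K
    (fun x S => a x.1 x.2.1 x.2.2 S - if S = ∅ then v x.1 else 0) d V
    (by
      intro x hx
      simp only [if_true]
      rw [hconst x hx, sub_self])
    (by
      intro x hx S hS
      by_cases hS0 : S = ∅
      · rw [hS0]; simp
      · simp only [if_neg hS0, sub_zero] at hS
        exact (ha x.1 x.2.1 x.2.2 (hK x hx).1 (hK x hx).2).1 S hS) hKc
  refine ⟨Z, hZV, hZn, ?_⟩
  -- the values at the chosen block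
  have hval : ∀ (k : Fin r) (q : Finset ℕ × Finset ℕ) (e : Finset α × Finset α),
      q ∈ prs j d → e ∈ E → pv (c k) (blk b q.1 ∪ (e.1 ∩ Z)) (blk b q.2 ∪ (e.2 ∩ Z)) = v k := by
    intro k q e hq he
    have h1 := hZ (k, q, e) (by simp only [K, mem_product]; exact ⟨mem_univ _, hq, he⟩)
    simp only [sum_sub_distrib] at h1
    rw [(ha k q e hq he).2 Z hZV, sum_ite_eq' Z.powerset ∅ (fun _ => v k),
      if_pos (empty_mem_powerset _)] at h1
    exact sub_eq_zero.1 h1
  set b' : α → ℕ := fun i => if i ∈ Z then j else b i with hb'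
  -- the blocks
  have hblk : ∀ I ⊆ range (j + 1), blk b' I = blk b (I.erase j) ∪ (if j ∈ I then Z else ∅) := by
    intro I hI
    ext i
    rw [mem_blk, mem_union, mem_blk, hb']
    by_cases hiZ : i ∈ Z
    · have hbi : b i = M := hV i (hZV hiZ)
      have h1 : b i ∉ I.erase j := by
        intro h2
        have h3 := hI (mem_of_mem_erase h2)
        rw [hbi, mem_range] at h3
        omega
      simp only [hiZ, if_true]
      have h1' : b i ∉ I := fun h2 => by
        have h3 := hI h2
        rw [hbi, mem_range] at h3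
        omega
      by_cases hjI : j ∈ I
      · simp [hjI, hiZ]
      · simp [hjI, h1']
    · simp only [hiZ, if_false]
      have h2 : i ∉ (if j ∈ I then Z else ∅) := by
        split_ifs
        · exact hiZ
        · simp
      simp only [h2, or_false]
      rw [mem_erase]
      constructor
      · intro h3
        refine ⟨?_, h3⟩
        intro h4
        rcases hb i with h5 | h5 <;> omega
      · exact fun h3 => h3.2
  intro k
  refine const_of_few (c k) d (hd k) b' (range (j + 1)) (v k) ?_
  intro I hI J hJ hcard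
  have hIe : I.erase j ⊆ range j := by
    intro x hx
    have h1 := hI (mem_of_mem_erase hx)
    have h2 := ne_of_mem_erase hx
    rw [mem_range] at h1 ⊢
    omega
  have hJe : J.erase j ⊆ range j := by
    intro x hx
    have h1 := hJ (mem_of_mem_erase hx)
    have h2 := ne_of_mem_erase hx
    rw [mem_range] at h1 ⊢
    omega
  have hq : j ∈ I ∪ J → (I.erase j, J.erase j) ∈ prs j d := by
    intro hj
    refine mem_filter.2 ⟨mem_product.2 ⟨mem_powerset.2 hIe, mem_powerset.2 hJe⟩, ?_⟩
    have h1 : I.erase j ∪ J.erase j = (I ∪ J).erase j := (erase_union_distrib I J j).symm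
    simp only
    rw [h1, card_erase_of_mem hj]
    have h2 : 0 < (I ∪ J).card := card_pos.2 ⟨j, hj⟩
    omega
  have hZV' : V ∩ Z = Z := inter_eq_right.2 hZV
  rw [hblk I hI, hblk J hJ]
  by_cases hjI : j ∈ I
  · by_cases hjJ : j ∈ J
    · have h1 := hval k _ (V, V) (hq (mem_union_left _ hjI)) (by simp [E])
      simp only [hZV'] at h1
      rw [if_pos hjI, if_pos hjJ]
      exact h1
    · have h1 := hval k _ (V, ∅) (hq (mem_union_left _ hjI)) (by simp [E])
      simp only [hZV', empty_inter] at h1
      rw [if_pos hjI, if_neg hjJ]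
      exact h1
  · by_cases hjJ : j ∈ J
    · have h1 := hval k _ (∅, V) (hq (mem_union_right _ hjJ)) (by simp [E])
      simp only [hZV', empty_inter] at h1
      rw [if_neg hjI, if_pos hjJ]
      exact h1
    · rw [if_neg hjI, if_neg hjJ, union_empty, union_empty]
      exact h k _ hIe _ hJe

/-- all blocks -/
theorem blocks [Fact p.Prime] {r : ℕ} (c : Fin r → Finset α → Finset α → ZMod p) (d : ℕ)
    (hd : ∀ k A B, c k A B ≠ 0 → (A ∪ B).card ≤ d) (t N : ℕ)
    (hN : ∀ j < t, (prs j d).card ≤ N)
    (hc : t * (3 * r * N * ((p - 1) * d) + 1) ≤ Fintype.card α) (j : ℕ) (hj : j ≤ t) :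
    ∃ b : α → ℕ, (∀ i, b i < j ∨ b i = t) ∧ (∀ x < j, ∃ i, b i = x) ∧
      Fintype.card α ≤ (univ.filter fun i => b i = t).card + j * (3 * r * N * ((p - 1) * d) + 1) ∧
      ∀ k, ∀ I ⊆ range j, ∀ J ⊆ range j, pv (c k) (blk b I) (blk b J) = pv (c k) ∅ ∅ := by
  classical
  set F := 3 * r * N * ((p - 1) * d) + 1 with hF
  induction j with
  | zero =>
    refine ⟨fun _ => t, fun _ => Or.inr rfl, ?_, ?_, ?_⟩
    · intro x hx; exact absurd hx (Nat.not_lt_zero _)
    · simp
    · intro k I hI J hJ
      rw [range_zero, subset_empty] at hI hJ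
      subst hI hJ
      simp [blk]
  | succ j ih =>
    obtain ⟨b, h1, h2, h3, h4⟩ := ih (by omega)
    have hcard : F ≤ (univ.filter fun i => b i = t).card := by
      have h5 : (j + 1) * F ≤ t * F := Nat.mul_le_mul_right _ hj
      have h6 : (j + 1) * F = j * F + F := by ring
      omega
    obtain ⟨V, hVs, hVc⟩ := exists_subset_card_eq hcard
    have hV : ∀ i ∈ V, b i = t := fun i hi => (mem_filter.1 (hVs hi)).2
    obtain ⟨Z, hZV, hZn, hZ⟩ := step c d hd (fun k => pv (c k) ∅ ∅) b j t (by omega) h1 V hV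
      (by
        rw [hVc, hF]
        refine Nat.lt_succ_of_le ?_
        have := hN j (by omega)
        gcongr) h4
    refine ⟨fun i => if i ∈ Z then j else b i, ?_, ?_, ?_, hZ⟩
    · intro i
      by_cases hi : i ∈ Z
      · left; simp [hi]
      · simp only [hi, if_false]
        rcases h1 i with h | h
        · left; omega
        · right; exact h
    · intro x hx
      by_cases hxj : x = j
      · obtain ⟨i, hi⟩ := hZn
        exact ⟨i, by simp [hi, hxj]⟩
      · obtain ⟨i, hi⟩ := h2 x (by omega)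
        refine ⟨i, ?_⟩
        have : i ∉ Z := by
          intro h
          have := hV i (hZV h)
          omega
        simp [this, hi]
    · have h5 : (univ.filter fun i => b i = t).card ≤
          (univ.filter fun i => (if i ∈ Z then j else b i) = t).card + F := by
        have h6 : (univ.filter fun i => b i = t) ⊆
            (univ.filter fun i => (if i ∈ Z then j else b i) = t) ∪ V := by
          intro i hi
          by_cases hiZ : i ∈ Z
          · exact mem_union_right _ (hZV hiZ)
          · refine mem_union_left _ (mem_filter.2 ⟨mem_univ _, ?_⟩)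
            rw [if_neg hiZ]
            exact (mem_filter.1 hi).2
        refine (card_le_card h6).trans ((card_union_le _ _).trans ?_)
        rw [hVc]
      have h6 : (j + 1) * F = j * F + F := by ring
      change Fintype.card α ≤
        (univ.filter fun i => (if i ∈ Z then j else b i) = t).card + (j + 1) * F
      omega

/-- **Low degree.** -/
theorem low_degree [Fact p.Prime] {r : ℕ} (c : Fin r → Finset α → Finset α → ZMod p) (d : ℕ)
    (hd : ∀ k A B, c k A B ≠ 0 → (A ∪ B).card ≤ d) (t N : ℕ)
    (hN : ∀ j < t, (prs j d).card ≤ N)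
    (hc : t * (3 * r * N * ((p - 1) * d) + 1) ≤ Fintype.card α) :
    ∃ H : Finset (Finset α), H.card = 2 ^ t ∧
      ∀ k, ∀ X ∈ H, ∀ Y ∈ H, pv (c k) X Y = pv (c k) ∅ ∅ := by
  classical
  obtain ⟨b, h1, h2, -, h4⟩ := blocks c d hd t N hN hc t le_rfl
  refine ⟨(range t).powerset.image (blk b), ?_, ?_⟩
  · rw [card_image_of_injOn, card_powerset, card_range]
    intro I hI J hJ hIJ
    have hI' := mem_powerset.1 (mem_coe.1 hI)
    have hJ' := mem_powerset.1 (mem_coe.1 hJ)
    have key : ∀ I ⊆ range t, ∀ J ⊆ range t, blk b I = blk b J → I ⊆ J := by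
      intro I hI J _ hIJ x hx
      obtain ⟨i, rfl⟩ := h2 x (mem_range.1 (hI hx))
      have : i ∈ blk b I := mem_blk.2 hx
      rw [hIJ] at this
      exact mem_blk.1 this
    exact Subset.antisymm (key I hI' J hJ' hIJ) (key J hJ' I hI' hIJ.symm)
  · intro k X hX Y hY
    obtain ⟨I, hI, rfl⟩ := mem_image.1 hX
    obtain ⟨J, hJ, rfl⟩ := mem_image.1 hY
    exact h4 k I (mem_powerset.1 hI) J (mem_powerset.1 hJ)

end

end Pool.Agent.Y806.SP
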