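import Pool.Agent.Y806.SP.C

/-!
# The number of pairs of sets of labels, and sparse families
-/

set_option autoImplicit false

namespace Pool.Agent.Y806.SP

open Finset

/-- the number of the pairs of sets of labels -/
theorem prs_card_le (j t d : ℕ) (hj : j ≤ t) :
    (prs j d).card ≤ ∑ i ∈ range d, t.choose i * 4 ^ i := by
  classical
  have h1 : prs j d ⊆ ((range j).powerset.filter (fun W => W.card < d)).biUnion
      (fun W => W.powerset ×ˢ W.powerset) := by
    intro q hq
    obtain ⟨h1, h2⟩ := mem_filter.1 hq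
    obtain ⟨h3, h4⟩ := mem_product.1 h1
    refine mem_biUnion.2 ⟨q.1 ∪ q.2, mem_filter.2 ⟨mem_powerset.2 (union_subset
      (mem_powerset.1 h3) (mem_powerset.1 h4)), h2⟩, mem_product.2
      ⟨mem_powerset.2 subset_union_left, mem_powerset.2 subset_union_right⟩⟩
  calc (prs j d).card ≤ _ := card_le_card h1
    _ ≤ ∑ W ∈ (range j).powerset.filter (fun W => W.card < d), (W.powerset ×ˢ W.powerset).card :=
        card_biUnion_le
    _ = ∑ W ∈ (range j).powerset, if W.card < d then 4 ^ W.card else 0 := by
        rw [sum_filter]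
        refine sum_congr rfl fun W _ => ?_
        rw [card_product, card_powerset, ← mul_pow]
        norm_num
    _ = ∑ i ∈ range (j + 1), j.choose i * (if i < d then 4 ^ i else 0) := by
        have := sum_powerset_apply_card (fun i => if i < d then 4 ^ i else 0) (x := range j)
        rw [this, card_range]
        refine sum_congr rfl fun i _ => ?_
        rw [smul_eq_mul]
    _ ≤ ∑ i ∈ range (j + 1), t.choose i * (if i < d then 4 ^ i else 0) := by
        refine sum_le_sum fun i _ => Nat.mul_le_mul_right _ (Nat.choose_le_choose i hj)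
    _ ≤ ∑ i ∈ range d, t.choose i * 4 ^ i := by
        rw [← sum_filter_add_sum_filter_not (range (j + 1)) (fun i => i < d)]
        have h2 : ∑ i ∈ (range (j + 1)).filter (fun i => ¬ i < d),
            t.choose i * (if i < d then 4 ^ i else 0) = 0 := by
          refine sum_eq_zero fun i hi => ?_
          rw [if_neg (mem_filter.1 hi).2, mul_zero]
        rw [h2, add_zero]
        have h3 : ∑ i ∈ (range (j + 1)).filter (fun i => i < d),
            t.choose i * (if i < d then 4 ^ i else 0) =
            ∑ i ∈ (range (j + 1)).filter (fun i => i < d), t.choose i * 4 ^ i := by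
          refine sum_congr rfl fun i hi => ?_
          rw [if_pos (mem_filter.1 hi).2]
        rw [h3]
        refine sum_le_sum_of_subset fun i hi => mem_range.2 (mem_filter.1 hi).2

theorem choose_sum_le (t d : ℕ) :
    8 ^ t * ∑ i ∈ range d, t.choose i * 4 ^ i ≤ 32 ^ d * 9 ^ t := by
  have h9 : (9 : ℕ) ^ t = ∑ i ∈ range (t + 1), 8 ^ (t - i) * t.choose i := by
    have := add_pow (1 : ℕ) 8 t
    norm_num at this
    exact this
  have h1 : ∑ i ∈ range d, 8 ^ t * (t.choose i * 4 ^ i) ≤
      ∑ i ∈ range (t + 1), 32 ^ d * (8 ^ (t - i) * t.choose i) := by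
    have h2 : ∑ i ∈ range d, 8 ^ t * (t.choose i * 4 ^ i) =
        ∑ i ∈ (range d).filter (fun i => i ≤ t), 8 ^ t * (t.choose i * 4 ^ i) := by
      refine (sum_subset (filter_subset _ _) ?_).symm
      intro i hi hi'
      have h3 : t < i := by
        by_contra h
        exact hi' (mem_filter.2 ⟨hi, not_lt.1 h⟩)
      rw [Nat.choose_eq_zero_of_lt h3]
      simp
    rw [h2]
    refine (sum_le_sum (f := fun i => 8 ^ t * (t.choose i * 4 ^ i))
      (g := fun i => 32 ^ d * (8 ^ (t - i) * t.choose i)) ?_).trans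
      (sum_le_sum_of_subset ?_)
    · intro i hi
      obtain ⟨hid, hit⟩ := mem_filter.1 hi
      rw [mem_range] at hid
      have e1 : (8 : ℕ) ^ t = 8 ^ (t - i) * 8 ^ i := by rw [← pow_add]; congr 1; omega
      have e2 : (8 : ℕ) ^ i * 4 ^ i ≤ 32 ^ d := by
        rw [← mul_pow]
        norm_num
        exact Nat.pow_le_pow_right (by norm_num) hid.le
      calc 8 ^ t * (t.choose i * 4 ^ i) = (8 ^ i * 4 ^ i) * (8 ^ (t - i) * t.choose i) := by
            rw [e1]; ring
        _ ≤ _ := Nat.mul_le_mul_right _ e2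
    · intro i hi
      exact mem_range.2 (Nat.lt_succ_of_le (mem_filter.1 hi).2)
  rw [mul_sum, h9, mul_sum]
  exact h1

/-- A family of few large sets: many coordinates which contain none of them. -/
theorem avoid (m q m' D : ℕ) (hm : m' * q ≤ m) (hq : 0 < q) (F : Finset (Finset (Fin m)))
    (hF : ∀ S ∈ F, D ≤ S.card) (hc : F.card < q ^ D) :
    ∃ T : Finset (Fin m), T.card = m' ∧ ∀ S ∈ F, ¬ S ⊆ T := by
  classical
  -- the coordinates
  have hlt : ∀ (a : Fin m') (b : Fin q), a.1 * q + b.1 < m := by
    intro a b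
    have h1 : a.1 * q + b.1 < (a.1 + 1) * q := by nlinarith [b.2]
    have h2 : (a.1 + 1) * q ≤ m' * q := Nat.mul_le_mul_right _ a.2
    omega
  let e : Fin m' × Fin q → Fin m := fun x => ⟨x.1.1 * q + x.2.1, hlt x.1 x.2⟩
  have he : Function.Injective e := by
    intro x y hxy
    have h1 : x.1.1 * q + x.2.1 = y.1.1 * q + y.2.1 := congrArg Fin.val hxy
    have h2 : x.1.1 = y.1.1 := by
      have := congrArg (fun n => n / q) h1
      rw [mul_comm, Nat.mul_add_div hq, Nat.div_eq_of_lt x.2.2, mul_comm, Nat.mul_add_div hq,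
        Nat.div_eq_of_lt y.2.2] at this
      omega
    have h3 : x.2.1 = y.2.1 := by rw [h2] at h1; omega
    exact Prod.ext (Fin.ext h2) (Fin.ext h3)
  let T : (Fin m' → Fin q) → Finset (Fin m) := fun φ => univ.image fun a => e (a, φ a)
  have hT : ∀ φ, (T φ).card = m' := by
    intro φ
    simp only [T]
    rw [card_image_of_injective, card_univ, Fintype.card_fin]
    intro a b hab
    exact congrArg Prod.fst (he hab)
  -- counting
  have hcount : ∀ S ∈ F, (univ.filter fun φ : Fin m' → Fin q => S ⊆ T φ).card * q ^ D ≤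
      q ^ m' := by
    intro S hS
    by_cases hne : ∃ φ, S ⊆ T φ
    swap
    · have : (univ.filter fun φ : Fin m' → Fin q => S ⊆ T φ) = ∅ := by
        rw [filter_eq_empty_iff]
        intro φ _ h
        exact hne ⟨φ, h⟩
      rw [this, card_empty, zero_mul]
      exact Nat.zero_le _
    let Q : Fin m' → Finset (Fin q) := fun a => univ.filter fun b => ∀ b', e (a, b') ∈ S → b' = b
    let s : Fin m' → Finset (Fin q) := fun a => univ.filter fun b => e (a, b) ∈ S
    have h1 : (univ.filter fun φ : Fin m' → Fin q => S ⊆ T φ) ⊆ Fintype.piFinset Q := by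
      intro φ hφ
      rw [Fintype.mem_piFinset]
      intro a
      refine mem_filter.2 ⟨mem_univ _, ?_⟩
      intro b' hb'
      have h2 := (mem_filter.1 hφ).2 hb'
      obtain ⟨a', _, ha'⟩ := mem_image.1 h2
      have h3 := he ha'
      have h4 : a' = a := congrArg Prod.fst h3
      have h5 : φ a' = b' := congrArg Prod.snd h3
      rw [← h5, h4]
    have h2 : ∀ a, (Q a).card * q ^ (s a).card ≤ q := by
      intro a
      rcases Nat.lt_trichotomy (s a).card 1 with h | h | h
      · have h0 : (s a).card = 0 := by omega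
        rw [h0, pow_zero, mul_one]
        exact (card_le_univ _).trans (by rw [Fintype.card_fin])
      · rw [h, pow_one]
        obtain ⟨b, hb⟩ := card_eq_one.1 h
        have h3 : Q a ⊆ {b} := by
          intro x hx
          rw [mem_singleton]
          have h4 : b ∈ s a := by rw [hb]; exact mem_singleton_self _
          exact ((mem_filter.1 hx).2 b (mem_filter.1 h4).2).symm
        calc (Q a).card * q ≤ 1 * q := Nat.mul_le_mul_right _ ((card_le_card h3).trans (by simp))
          _ = q := one_mul q
      · obtain ⟨b, hb, b', hb', hbb⟩ := one_lt_card.1 h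
        have h3 : Q a = ∅ := by
          rw [filter_eq_empty_iff]
          intro x _ hx
          exact hbb ((hx b (mem_filter.1 hb).2).trans (hx b' (mem_filter.1 hb').2).symm)
        rw [h3, card_empty, zero_mul]
        exact Nat.zero_le _
    have h3 : S.card = ∑ a, (s a).card := by
      have h4 : S = (univ.sigma s).image (fun x => e (x.1, x.2)) := by
        ext i
        rw [mem_image]
        constructor
        · intro hi
          obtain ⟨φ, hφ⟩ := hne
          obtain ⟨a, _, ha⟩ := mem_image.1 (hφ hi)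
          exact ⟨⟨a, φ a⟩, mem_sigma.2 ⟨mem_univ _, mem_filter.2 ⟨mem_univ _, by rw [ha]; exact hi⟩⟩,
            ha⟩
        · rintro ⟨x, hx, rfl⟩
          exact (mem_filter.1 (mem_sigma.1 hx).2).2
      conv_lhs => rw [h4]
      rw [card_image_of_injective, card_sigma]
      rintro ⟨a, b⟩ ⟨a', b'⟩ h
      have h5 := he h
      simp only [Prod.mk.injEq] at h5
      obtain ⟨rfl, rfl⟩ := h5
      rfl
    calc (univ.filter fun φ : Fin m' → Fin q => S ⊆ T φ).card * q ^ D
        ≤ (Fintype.piFinset Q).card * q ^ S.card :=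
          Nat.mul_le_mul (card_le_card h1) (Nat.pow_le_pow_right hq (hF S hS))
      _ = ∏ a, ((Q a).card * q ^ (s a).card) := by
          rw [Fintype.card_piFinset, prod_mul_distrib, prod_pow_eq_pow_sum, h3]
      _ ≤ ∏ _a : Fin m', q := prod_le_prod' fun a _ => h2 a
      _ = q ^ m' := by rw [prod_const, card_univ, Fintype.card_fin]
  -- a good choice
  by_contra hcon
  push Not at hcon
  have h1 : ∀ φ : Fin m' → Fin q, ∃ S ∈ F, S ⊆ T φ := fun φ => hcon (T φ) (hT φ)
  have h2 : (univ : Finset (Fin m' → Fin q)) ⊆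
      F.biUnion fun S => univ.filter fun φ : Fin m' → Fin q => S ⊆ T φ := by
    intro φ _
    obtain ⟨S, hS, hSφ⟩ := h1 φ
    exact mem_biUnion.2 ⟨S, hS, mem_filter.2 ⟨mem_univ _, hSφ⟩⟩
  have h3 := card_le_card h2
  rw [card_univ, Fintype.card_fun, Fintype.card_fin, Fintype.card_fin] at h3
  have h4 : q ^ m' * q ^ D ≤ F.card * q ^ m' := by
    calc q ^ m' * q ^ D ≤ (∑ S ∈ F, (univ.filter fun φ : Fin m' → Fin q => S ⊆ T φ).card) * q ^ D :=
          Nat.mul_le_mul_right _ (h3.trans card_biUnion_le)
      _ = ∑ S ∈ F, (univ.filter fun φ : Fin m' → Fin q => S ⊆ T φ).card * q ^ D := by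
          rw [sum_mul]
      _ ≤ ∑ S ∈ F, q ^ m' := sum_le_sum hcount
      _ = F.card * q ^ m' := by rw [sum_const, smul_eq_mul]
  have h5 : 0 < q ^ m' := Nat.pos_of_ne_zero (pow_ne_zero _ (by omega))
  nlinarith

end Pool.Agent.Y806.SP
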