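import Pool.Agent.Y806.SP.D

/-!
# Sparse polynomials: large homogeneous sets
-/

set_option autoImplicit false

namespace Pool.Agent.Y806.SP

open Finset

/-- the number of monomials of the polynomial with coefficients `c` -/
def monos {α : Type*} [DecidableEq α] [Fintype α] {p : ℕ} (c : Finset α → Finset α → ZMod p) : ℕ :=
  (univ.filter fun q : Finset α × Finset α => c q.1 q.2 ≠ 0).card

theorem powerset_map_eq {α β : Type*} (e : α ↪ β) (X : Finset α) :
    (X.map e).powerset = X.powerset.map ⟨Finset.map e, Finset.map_injective e⟩ := by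
  classical
  ext S
  rw [mem_powerset, mem_map]
  constructor
  · intro h
    obtain ⟨A, hA, rfl⟩ := subset_map_iff.1 h
    exact ⟨A, mem_powerset.2 hA, rfl⟩
  · rintro ⟨A, hA, rfl⟩
    exact map_subset_map.2 (mem_powerset.1 hA)

theorem pv_map {α β : Type*} {p : ℕ} (e : α ↪ β) (c : Finset β → Finset β → ZMod p)
    (X Y : Finset α) :
    pv c (X.map e) (Y.map e) = pv (fun A B => c (A.map e) (B.map e)) X Y := by
  unfold pv
  rw [powerset_map_eq, powerset_map_eq, sum_map]
  refine sum_congr rfl fun A _ => ?_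
  rw [sum_map]
  rfl

/-- **Sparse polynomials, explicit form.** -/
theorem sparse_explicit {p : ℕ} [Fact p.Prime] (m q m' d t r : ℕ) (hm : m' * q ≤ m) (hq : 0 < q)
    (c : Fin r → Finset (Fin m) → Finset (Fin m) → ZMod p)
    (hs : ∑ k, monos (c k) < q ^ (d + 1))
    (hc : t * (3 * r * (∑ i ∈ range d, t.choose i * 4 ^ i) * ((p - 1) * d) + 1) ≤ m') :
    ∃ H : Finset (Finset (Fin m)), H.card = 2 ^ t ∧
      ∀ k, ∀ X ∈ H, ∀ Y ∈ H, pv (c k) X Y = pv (c k) ∅ ∅ := by
  classical
  -- the large supports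
  let F : Finset (Finset (Fin m)) := (univ : Finset (Fin r)).biUnion fun k =>
    ((univ.filter fun x : Finset (Fin m) × Finset (Fin m) => c k x.1 x.2 ≠ 0).image
      fun x => x.1 ∪ x.2).filter fun S => d + 1 ≤ S.card
  have hFc : F.card < q ^ (d + 1) := by
    refine lt_of_le_of_lt (card_biUnion_le.trans (sum_le_sum fun k _ => ?_)) hs
    exact (card_filter_le _ _).trans card_image_le
  obtain ⟨T, hT, hTF⟩ := avoid m q m' (d + 1) hm hq F
    (by
      intro S hS
      obtain ⟨k, _, hk⟩ := mem_biUnion.1 hS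
      exact (mem_filter.1 hk).2) hFc
  let e : T ↪ Fin m := Function.Embedding.subtype _
  have hmapT : ∀ A : Finset T, A.map e ⊆ T := by
    intro A i hi
    obtain ⟨j, _, rfl⟩ := mem_map.1 hi
    exact j.2
  have hd : ∀ k (A B : Finset T), c k (A.map e) (B.map e) ≠ 0 → (A ∪ B).card ≤ d := by
    intro k A B hAB
    by_contra hcon
    push Not at hcon
    have h1 : A.map e ∪ B.map e ∈ F := by
      refine mem_biUnion.2 ⟨k, mem_univ _, mem_filter.2 ⟨mem_image.2
        ⟨(A.map e, B.map e), mem_filter.2 ⟨mem_univ _, hAB⟩, rfl⟩, ?_⟩⟩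
      rw [← map_union, card_map]
      omega
    exact hTF _ h1 (union_subset (hmapT A) (hmapT B))
  obtain ⟨H, hH, hval⟩ := low_degree (fun k A B => c k (A.map e) (B.map e)) d hd t
    (∑ i ∈ range d, t.choose i * 4 ^ i) (fun j hj => prs_card_le j t d hj.le)
    (by rw [Fintype.card_coe, hT]; exact hc)
  refine ⟨H.map ⟨Finset.map e, Finset.map_injective e⟩, by rw [card_map, hH], ?_⟩
  intro k X hX Y hY
  obtain ⟨X', hX', rfl⟩ := mem_map.1 hX
  obtain ⟨Y', hY', rfl⟩ := mem_map.1 hY
  have h1 := hval k X' hX' Y' hY'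
  have h2 : pv (c k) (∅ : Finset (Fin m)) ∅ =
      pv (fun A B : Finset T => c k (A.map e) (B.map e)) ∅ ∅ := by
    have := pv_map e (c k) ∅ ∅
    rw [map_empty] at this
    exact this
  rw [h2, ← h1]
  exact pv_map e (c k) X' Y'

end Pool.Agent.Y806.SP
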