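import Pool.Agent.Y806.SP.E

/-!
# Sparse polynomials: the asymptotic form
-/

set_option autoImplicit false

namespace Pool.Agent.Y806.SP

open Finset Filter

theorem choose_sum_le' (K t d : ℕ) (hK : 1 ≤ K) :
    K ^ t * ∑ i ∈ range d, t.choose i * 4 ^ i ≤ (4 * K) ^ d * (K + 1) ^ t := by
  have h9 : (K + 1) ^ t = ∑ i ∈ range (t + 1), K ^ (t - i) * t.choose i := by
    have := add_pow (1 : ℕ) K t
    rw [add_comm] at this
    rw [this]
    refine sum_congr rfl fun i _ => ?_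
    rw [one_pow, one_mul, Nat.cast_id]
  have h1 : ∑ i ∈ range d, K ^ t * (t.choose i * 4 ^ i) ≤
      ∑ i ∈ range (t + 1), (4 * K) ^ d * (K ^ (t - i) * t.choose i) := by
    have h2 : ∑ i ∈ range d, K ^ t * (t.choose i * 4 ^ i) =
        ∑ i ∈ (range d).filter (fun i => i ≤ t), K ^ t * (t.choose i * 4 ^ i) := by
      refine (sum_subset (filter_subset _ _) ?_).symm
      intro i hi hi'
      have h3 : t < i := by
        by_contra h
        exact hi' (mem_filter.2 ⟨hi, not_lt.1 h⟩)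
      rw [Nat.choose_eq_zero_of_lt h3]
      simp
    rw [h2]
    refine (sum_le_sum (f := fun i => K ^ t * (t.choose i * 4 ^ i))
      (g := fun i => (4 * K) ^ d * (K ^ (t - i) * t.choose i)) ?_).trans
      (sum_le_sum_of_subset ?_)
    · intro i hi
      obtain ⟨hid, hit⟩ := mem_filter.1 hi
      rw [mem_range] at hid
      have e1 : K ^ t = K ^ (t - i) * K ^ i := by rw [← pow_add]; congr 1; omega
      have e2 : K ^ i * 4 ^ i ≤ (4 * K) ^ d := by
        rw [← mul_pow, mul_comm K 4]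
        exact Nat.pow_le_pow_right (by omega) hid.le
      calc K ^ t * (t.choose i * 4 ^ i) = (K ^ i * 4 ^ i) * (K ^ (t - i) * t.choose i) := by
            rw [e1]; ring
        _ ≤ _ := Nat.mul_le_mul_right _ e2
    · intro i hi
      exact mem_range.2 (Nat.lt_succ_of_le (mem_filter.1 hi).2)
  rw [mul_sum, h9, mul_sum]
  exact h1

theorem exp_le_two : Real.exp (1 / 8) ≤ (2 : ℝ) ^ (1 / 5 : ℝ) := by
  have h1 : (Real.exp (1 / 8)) ^ (40 : ℕ) ≤ ((2 : ℝ) ^ (1 / 5 : ℝ)) ^ (40 : ℕ) := by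
    rw [← Real.exp_nat_mul, ← Real.rpow_natCast ((2 : ℝ) ^ (1 / 5 : ℝ)) 40,
      ← Real.rpow_mul (by norm_num)]
    have e1 : ((40 : ℕ) : ℝ) * (1 / 8) = 5 * 1 := by norm_num
    have e2 : (1 / 5 : ℝ) * ((40 : ℕ) : ℝ) = ((8 : ℕ) : ℝ) := by norm_num
    rw [e1, e2, Real.rpow_natCast]
    have e3 : Real.exp (5 * 1) = Real.exp 1 ^ (5 : ℕ) := by
      rw [← Real.exp_nat_mul]; norm_num
    rw [e3]
    calc Real.exp 1 ^ (5 : ℕ) ≤ (3 : ℝ) ^ (5 : ℕ) :=
          pow_le_pow_left₀ (Real.exp_pos 1).le (by linarith [Real.exp_one_lt_d9]) 5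
      _ ≤ 2 ^ 8 := by norm_num
  exact le_of_pow_le_pow_left₀ (by norm_num) (by positivity) h1

theorem eventually_sq (B : ℝ) :
    ∀ᶠ l : ℕ in atTop, B * (l : ℝ) ^ 2 ≤ (2 : ℝ) ^ ((l : ℝ) / 10) := by
  have h1 : (1 : ℝ) < (2 : ℝ) ^ (1 / 10 : ℝ) := Real.one_lt_rpow (by norm_num) (by norm_num)
  have h2 := (tendsto_pow_const_div_const_pow_of_one_lt 2 h1).const_mul B
  rw [mul_zero] at h2
  have h3 : ∀ᶠ l : ℕ in atTop, B * ((l : ℝ) ^ 2 / ((2 : ℝ) ^ (1 / 10 : ℝ)) ^ l) < 1 :=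
    h2.eventually (gt_mem_nhds (by norm_num))
  filter_upwards [h3] with l hl
  have hpos : (0 : ℝ) < ((2 : ℝ) ^ (1 / 10 : ℝ)) ^ l := by positivity
  rw [← mul_div_assoc, div_lt_iff₀ hpos] at hl
  have h4 : ((2 : ℝ) ^ (1 / 10 : ℝ)) ^ l = (2 : ℝ) ^ ((l : ℝ) / 10) := by
    rw [← Real.rpow_natCast, ← Real.rpow_mul (by norm_num)]
    congr 1
    ring
  rw [h4] at hl
  linarith

/-- the parameters -/
theorem params (A : ℕ) (hA : 1 ≤ A) :
    ∃ L : ℕ, ∀ l ≥ L, ∀ x : ℝ, 0 ≤ x → x ≤ (2 : ℝ) ^ (((l : ℝ) + 1) / 4) →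
    ((A * (l + 1) : ℕ) : ℝ) *
      (3 * x * ((32 * A : ℝ) ^ (l / (4 * (A + 5))) * (1 + 1 / (8 * A) : ℝ) ^ (A * (l + 1))) *
        ((l / (4 * (A + 5)) : ℕ) : ℝ) + 1)
      ≤ (2 : ℝ) ^ (l - (l + 5) / 6) := by
  obtain ⟨L, hL⟩ := eventually_atTop.1 (eventually_sq (32 * A))
  refine ⟨max L 50, fun l hl x hx0 hx => ?_⟩
  have hlL : L ≤ l := le_trans (le_max_left _ _) hl
  have hl20 : 50 ≤ l := le_trans (le_max_right _ _) hl
  have hl20' : (50 : ℝ) ≤ l := by exact_mod_cast hl20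
  have hsq := hL l hlL
  have hA' : (1 : ℝ) ≤ A := by exact_mod_cast hA
  set d := l / (4 * (A + 5)) with hd
  have hd1 : (d : ℝ) * (4 * (A + 5)) ≤ l := by
    have h1 : d * (4 * (A + 5)) ≤ l := Nat.div_mul_le_self _ _
    exact_mod_cast h1
  have hdl : (d : ℝ) ≤ l := by
    have h1 : d ≤ l := Nat.div_le_self _ _
    exact_mod_cast h1
  have h32 : (32 * A : ℝ) ^ d ≤ (2 : ℝ) ^ ((l : ℝ) / 4) := by
    have h1 : (32 * A : ℝ) ≤ (2 : ℝ) ^ (A + 5) := by
      have h2 : A < 2 ^ A := Nat.lt_two_pow_self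
      have h3 : (A : ℝ) ≤ (2 : ℝ) ^ A := by exact_mod_cast h2.le
      rw [pow_add]
      norm_num
      linarith
    calc (32 * A : ℝ) ^ d ≤ ((2 : ℝ) ^ (A + 5)) ^ d := pow_le_pow_left₀ (by positivity) h1 d
      _ = (2 : ℝ) ^ (((A + 5) * d : ℕ) : ℝ) := by rw [← pow_mul, Real.rpow_natCast]
      _ ≤ _ := by
        refine Real.rpow_le_rpow_of_exponent_le (by norm_num) ?_
        push_cast
        linarith
  have h98 : (1 + 1 / (8 * A) : ℝ) ^ (A * (l + 1)) ≤ (2 : ℝ) ^ (((l : ℝ) + 1) / 5) := by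
    have h1 : (1 + 1 / (8 * A) : ℝ) ≤ Real.exp (1 / (8 * A)) := by
      have := Real.add_one_le_exp (1 / (8 * (A : ℝ)))
      linarith
    calc (1 + 1 / (8 * A) : ℝ) ^ (A * (l + 1)) ≤ (Real.exp (1 / (8 * A))) ^ (A * (l + 1)) :=
          pow_le_pow_left₀ (by positivity) h1 _
      _ = (Real.exp (1 / 8)) ^ (l + 1) := by
          rw [← Real.exp_nat_mul, ← Real.exp_nat_mul]
          congr 1
          push_cast
          have : (A : ℝ) ≠ 0 := by linarith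
          field_simp
      _ ≤ ((2 : ℝ) ^ (1 / 5 : ℝ)) ^ (l + 1) :=
          pow_le_pow_left₀ (Real.exp_pos _).le exp_le_two _
      _ = (2 : ℝ) ^ (((l : ℝ) + 1) / 5) := by
          rw [← Real.rpow_natCast, ← Real.rpow_mul (by norm_num)]
          congr 1
          push_cast
          ring
  have hexp : (2 : ℝ) ^ (((l : ℝ) + 1) / 4) * ((2 : ℝ) ^ ((l : ℝ) / 4) *
        (2 : ℝ) ^ (((l : ℝ) + 1) / 5)) ≤ (2 : ℝ) ^ (7 / 10 * (l : ℝ) + 1 / 2) := by
    rw [← Real.rpow_add (by norm_num), ← Real.rpow_add (by norm_num)]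
    exact Real.rpow_le_rpow_of_exponent_le (by norm_num) (by linarith)
  set W : ℝ := (2 : ℝ) ^ (7 / 10 * (l : ℝ) + 1 / 2) with hW
  have hW1 : 1 ≤ W := Real.one_le_rpow (by norm_num) (by positivity)
  have hprod : x * ((32 * A : ℝ) ^ d * (1 + 1 / (8 * A) : ℝ) ^ (A * (l + 1))) ≤ W := by
    refine le_trans ?_ hexp
    refine mul_le_mul hx ?_ (by positivity) (by positivity)
    exact mul_le_mul h32 h98 (by positivity) (by positivity)
  have hin : 3 * x * ((32 * A : ℝ) ^ d * (1 + 1 / (8 * A) : ℝ) ^ (A * (l + 1))) * (d : ℝ) + 1 ≤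
      4 * W * l := by
    have h1 : 3 * x * ((32 * A : ℝ) ^ d * (1 + 1 / (8 * A) : ℝ) ^ (A * (l + 1))) * (d : ℝ) ≤
        3 * W * l := by
      calc 3 * x * ((32 * A : ℝ) ^ d * (1 + 1 / (8 * A) : ℝ) ^ (A * (l + 1))) * (d : ℝ)
          = 3 * (x * ((32 * A : ℝ) ^ d * (1 + 1 / (8 * A) : ℝ) ^ (A * (l + 1)))) * (d : ℝ) := by
            ring
        _ ≤ 3 * W * l := by
          refine mul_le_mul ?_ hdl (by positivity) (by positivity)
          exact mul_le_mul_of_nonneg_left hprod (by norm_num)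
    nlinarith
  have hout : ((A * (l + 1) : ℕ) : ℝ) *
      (3 * x * ((32 * A : ℝ) ^ d * (1 + 1 / (8 * A) : ℝ) ^ (A * (l + 1))) * (d : ℝ) + 1) ≤
      8 * A * (l : ℝ) ^ 2 * W := by
    have h1 : ((A * (l + 1) : ℕ) : ℝ) ≤ 2 * A * l := by
      push_cast
      nlinarith
    calc ((A * (l + 1) : ℕ) : ℝ) *
        (3 * x * ((32 * A : ℝ) ^ d * (1 + 1 / (8 * A) : ℝ) ^ (A * (l + 1))) * (d : ℝ) + 1)
        ≤ (2 * A * l) * (4 * W * l) := by
          refine mul_le_mul h1 hin (by positivity) (by positivity)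
      _ = 8 * A * (l : ℝ) ^ 2 * W := by ring
  refine hout.trans ?_
  have hR : (2 : ℝ) ^ ((5 / 6 : ℝ) * l - 5 / 6) ≤ (2 : ℝ) ^ (l - (l + 5) / 6) := by
    rw [← Real.rpow_natCast]
    refine Real.rpow_le_rpow_of_exponent_le (by norm_num) ?_
    have h1 : (l + 5) / 6 ≤ l := by omega
    rw [Nat.cast_sub h1]
    have h2 : (((l + 5) / 6 : ℕ) : ℝ) ≤ (l + 5) / 6 := by
      have h3 : ((l + 5) / 6) * 6 ≤ l + 5 := Nat.div_mul_le_self _ _
      have h4 : (((l + 5) / 6 : ℕ) : ℝ) * 6 ≤ l + 5 := by exact_mod_cast h3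
      linarith
    linarith
  refine le_trans ?_ hR
  have h8 : 8 * A * (l : ℝ) ^ 2 ≤ (2 : ℝ) ^ ((l : ℝ) / 10 - 2) := by
    rw [Real.rpow_sub (by norm_num)]
    have : (2 : ℝ) ^ (2 : ℝ) = 4 := by
      have : (2 : ℝ) = ((2 : ℕ) : ℝ) := by norm_num
      nth_rewrite 2 [this]
      rw [Real.rpow_natCast]
      norm_num
    rw [this, le_div_iff₀ (by norm_num)]
    linarith
  calc 8 * A * (l : ℝ) ^ 2 * W ≤ (2 : ℝ) ^ ((l : ℝ) / 10 - 2) * W :=
        mul_le_mul_of_nonneg_right h8 (by positivity)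
    _ = (2 : ℝ) ^ ((l : ℝ) / 10 - 2 + (7 / 10 * (l : ℝ) + 1 / 2)) := by
        rw [hW, ← Real.rpow_add (by norm_num)]
    _ ≤ _ := Real.rpow_le_rpow_of_exponent_le (by norm_num) (by linarith)

/-- **Sparse polynomials, asymptotic form.** -/
theorem sparse_asymp (A : ℕ) (hA : 1 ≤ A) : ∃ m₀ : ℕ, ∀ m ≥ m₀, ∀ (p r : ℕ), p.Prime →
    (p : ℝ) * r ≤ (m : ℝ) ^ (1 / 4 : ℝ) →
    ∀ c : Fin r → Finset (Fin m) → Finset (Fin m) → ZMod p,
    ((∑ k, monos (c k) : ℕ) : ℝ) ≤ (m : ℝ) ^ (Real.logb 2 m / (25 * (A + 5))) →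
    ∃ H : Finset (Finset (Fin m)), m ^ A ≤ H.card ∧
      ∀ k, ∀ X ∈ H, ∀ Y ∈ H, pv (c k) X Y = pv (c k) ∅ ∅ := by
  obtain ⟨L, hL⟩ := params A hA
  refine ⟨2 ^ (max L 50), fun m hm p r hp hpr c hc => ?_⟩
  have : Fact p.Prime := ⟨hp⟩
  have hm0 : m ≠ 0 := by
    have : 0 < 2 ^ (max L 50) := by positivity
    omega
  have hA' : (1 : ℝ) ≤ A := by exact_mod_cast hA
  set l := Nat.log 2 m with hl
  have hlL : max L 50 ≤ l := (Nat.le_log_iff_pow_le (by norm_num) hm0).2 hm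
  have hlL1 : L ≤ l := le_trans (le_max_left _ _) hlL
  have hl30 : 50 ≤ l := le_trans (le_max_right _ _) hlL
  have hl30' : (50 : ℝ) ≤ l := by exact_mod_cast hl30
  have hlow : 2 ^ l ≤ m := Nat.pow_log_le_self 2 hm0
  have hup : m < 2 ^ (l + 1) := Nat.lt_pow_succ_log_self (by norm_num) m
  have hupR : (m : ℝ) ≤ (2 : ℝ) ^ ((l : ℝ) + 1) := by
    have h1 : (m : ℝ) ≤ ((2 ^ (l + 1) : ℕ) : ℝ) := by exact_mod_cast hup.le
    refine h1.trans (le_of_eq ?_)
    push_cast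
    rw [← Real.rpow_natCast]
    push_cast
    rfl
  have hmR : (1 : ℝ) ≤ m := by
    have : 1 ≤ m := Nat.one_le_iff_ne_zero.2 hm0
    exact_mod_cast this
  have hm0R : (0 : ℝ) ≤ m := by linarith
  set t := A * (l + 1) with ht
  set d := l / (4 * (A + 5)) with hd
  -- the number of monomials
  have hmon : ∑ k, monos (c k) < (2 ^ ((l + 5) / 6)) ^ (d + 1) := by
    have h1 : (m : ℝ) ^ (Real.logb 2 m / (25 * (A + 5))) ≤
        (2 : ℝ) ^ (((l : ℝ) + 1) * (((l : ℝ) + 1) / (25 * (A + 5)))) := by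
      have hlog : Real.logb 2 m ≤ (l : ℝ) + 1 := by
        rw [Real.logb_le_iff_le_rpow (by norm_num) (by linarith)]
        exact hupR
      have hlog0 : 0 ≤ Real.logb 2 m := Real.logb_nonneg (by norm_num) hmR
      calc (m : ℝ) ^ (Real.logb 2 m / (25 * (A + 5))) ≤ (m : ℝ) ^ (((l : ℝ) + 1) / (25 * (A + 5))) :=
            Real.rpow_le_rpow_of_exponent_le hmR (by gcongr)
        _ ≤ ((2 : ℝ) ^ ((l : ℝ) + 1)) ^ (((l : ℝ) + 1) / (25 * (A + 5))) :=
            Real.rpow_le_rpow hm0R hupR (by positivity)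
        _ = _ := by rw [← Real.rpow_mul (by norm_num)]
    have h2 : (2 : ℝ) ^ (((l : ℝ) + 1) * (((l : ℝ) + 1) / (25 * (A + 5)))) <
        (((2 ^ ((l + 5) / 6)) ^ (d + 1) : ℕ) : ℝ) := by
      push_cast
      rw [← pow_mul, ← Real.rpow_natCast]
      refine Real.rpow_lt_rpow_of_exponent_lt (by norm_num) ?_
      push_cast
      have h3 : (l : ℝ) / 6 ≤ (((l + 5) / 6 : ℕ) : ℝ) := by
        have h4 : l ≤ ((l + 5) / 6) * 6 := by omega
        have h5 : (l : ℝ) ≤ (((l + 5) / 6 : ℕ) : ℝ) * 6 := by exact_mod_cast h4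
        linarith
      have h6 : (l : ℝ) / (4 * (A + 5)) ≤ (d : ℝ) + 1 := by
        have h4 : l < (l / (4 * (A + 5)) + 1) * (4 * (A + 5)) := by
          have h4a := Nat.div_add_mod l (4 * (A + 5))
          have h4b := Nat.mod_lt l (show 0 < 4 * (A + 5) by omega)
          have h4c : (l / (4 * (A + 5)) + 1) * (4 * (A + 5)) =
              4 * (A + 5) * (l / (4 * (A + 5))) + 4 * (A + 5) := by ring
          rw [h4c]
          linarith
        rw [div_le_iff₀ (by positivity)]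
        have h5 : (l : ℝ) < (((l / (4 * (A + 5)) : ℕ) : ℝ) + 1) * (4 * (A + 5)) := by
          exact_mod_cast h4
        exact h5.le
      have h7 : (l : ℝ) / 6 * ((l : ℝ) / (4 * (A + 5))) ≤ (((l + 5) / 6 : ℕ) : ℝ) * ((d : ℝ) + 1) :=
        mul_le_mul h3 h6 (by positivity) (by positivity)
      refine lt_of_lt_of_le ?_ h7
      have h8 : (0 : ℝ) < A + 5 := by linarith
      have e1 : ((l : ℝ) + 1) * (((l : ℝ) + 1) / (25 * (A + 5))) =
          ((l : ℝ) + 1) ^ 2 / 25 / (A + 5) := by field_simp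
      have e2 : (l : ℝ) / 6 * ((l : ℝ) / (4 * (A + 5))) = (l : ℝ) ^ 2 / 24 / (A + 5) := by
        field_simp; ring
      rw [e1, e2]
      refine div_lt_div_of_pos_right ?_ h8
      nlinarith
    have h3 := lt_of_le_of_lt (hc.trans h1) h2
    exact_mod_cast h3
  -- the window
  have hwin : t * (3 * r * (∑ i ∈ range d, t.choose i * 4 ^ i) * ((p - 1) * d) + 1) ≤
      2 ^ (l - (l + 5) / 6) := by
    set N := ∑ i ∈ range d, t.choose i * 4 ^ i with hN
    have hNR : (N : ℝ) ≤ (32 * A : ℝ) ^ d * (1 + 1 / (8 * A) : ℝ) ^ t := by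
      have h1 := choose_sum_le' (8 * A) t d (by omega)
      rw [← hN] at h1
      have h2 : ((8 * A : ℝ)) ^ t * N ≤ (4 * (8 * A)) ^ d * (8 * A + 1) ^ t := by
        exact_mod_cast h1
      have h3 : (1 + 1 / (8 * A) : ℝ) = (8 * A + 1) / (8 * A) := by
        have : (A : ℝ) ≠ 0 := by linarith
        field_simp
      rw [h3, div_pow, mul_div_assoc', le_div_iff₀ (by positivity)]
      have h4 : (4 * (8 * A) : ℝ) = 32 * A := by ring
      rw [h4] at h2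
      linarith
    have hx : (p : ℝ) * r ≤ (2 : ℝ) ^ (((l : ℝ) + 1) / 4) := by
      refine hpr.trans ?_
      calc (m : ℝ) ^ (1 / 4 : ℝ) ≤ ((2 : ℝ) ^ ((l : ℝ) + 1)) ^ (1 / 4 : ℝ) :=
            Real.rpow_le_rpow hm0R hupR (by norm_num)
        _ = _ := by
            rw [← Real.rpow_mul (by norm_num)]
            congr 1
            ring
    have h1 := hL l hlL1 ((p : ℝ) * r) (by positivity) hx
    have h2 : (t : ℝ) * (3 * r * N * (((p - 1 : ℕ) : ℝ) * d) + 1) ≤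
        (t : ℝ) * (3 * ((p : ℝ) * r) * ((32 * A : ℝ) ^ d * (1 + 1 / (8 * A) : ℝ) ^ t) *
          (d : ℝ) + 1) := by
      refine mul_le_mul_of_nonneg_left ?_ (by positivity)
      have h3 : ((p - 1 : ℕ) : ℝ) ≤ p := by exact_mod_cast Nat.sub_le _ _
      have h4 : 3 * (r : ℝ) * N * (((p - 1 : ℕ) : ℝ) * d) ≤
          3 * ((p : ℝ) * r) * ((32 * A : ℝ) ^ d * (1 + 1 / (8 * A) : ℝ) ^ t) * (d : ℝ) := by
        calc 3 * (r : ℝ) * N * (((p - 1 : ℕ) : ℝ) * d)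
            = (3 * r * d) * (((p - 1 : ℕ) : ℝ) * N) := by ring
          _ ≤ (3 * r * d) * ((p : ℝ) * ((32 * A : ℝ) ^ d * (1 + 1 / (8 * A) : ℝ) ^ t)) := by
              refine mul_le_mul_of_nonneg_left ?_ (by positivity)
              exact mul_le_mul h3 hNR (by positivity) (by positivity)
          _ = _ := by ring
      linarith
    have h5 := h2.trans h1
    have h6 : ((t * (3 * r * N * ((p - 1) * d) + 1) : ℕ) : ℝ) ≤ ((2 ^ (l - (l + 5) / 6) : ℕ) : ℝ) := by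
      push_cast
      exact h5
    exact_mod_cast h6
  obtain ⟨H, hH, hval⟩ := sparse_explicit m (2 ^ ((l + 5) / 6)) (2 ^ (l - (l + 5) / 6)) d t r
    (by
      rw [← pow_add]
      have : l - (l + 5) / 6 + (l + 5) / 6 = l := by omega
      rw [this]
      exact hlow) (by positivity) c hmon hwin
  refine ⟨H, ?_, hval⟩
  rw [hH, ht]
  calc m ^ A ≤ (2 ^ (l + 1)) ^ A := Nat.pow_le_pow_left hup.le A
    _ = 2 ^ (A * (l + 1)) := by rw [← pow_mul, mul_comm]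

end Pool.Agent.Y806.SP
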