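import Pool.Agent.Y806.SP.E

/-!
# Interpolation on few bit strings, and random polynomials
-/

set_option autoImplicit false

namespace Pool.Agent.Y806.SP

open Finset

/-- Every function on fewer than `2 ^ (D + 1)` bit strings is given by a polynomial of degree at
most `D`. -/
theorem interp {β F : Type*} [DecidableEq β] [Field F] (V : Finset β) :
    ∀ (D : ℕ) (P : Finset (Finset β)), (∀ X ∈ P, X ⊆ V) → P.card < 2 ^ (D + 1) →
    ∀ u : Finset β → F, ∃ a : Finset β → F, (∀ S, a S ≠ 0 → S.card ≤ D) ∧
      ∀ X ∈ P, ∑ S ∈ X.powerset, a S = u X := by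
  classical
  induction V using Finset.induction_on with
  | empty =>
    intro D P hP _ u
    refine ⟨fun S => if S = ∅ then u ∅ else 0, ?_, ?_⟩
    · intro S hS
      by_cases h : S = ∅
      · rw [h]; simp
      · simp [h] at hS
    · intro X hX
      have hX0 : X = ∅ := subset_empty.1 (hP X hX)
      subst hX0
      simp
  | insert v V hv ih =>
    intro D P hP hc u
    -- the two halves
    set P0 : Finset (Finset β) := P.filter fun X => v ∉ X with hP0
    set P1 : Finset (Finset β) := (P.filter fun X => v ∈ X).image fun X => X.erase v with hP1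
    have h0V : ∀ X ∈ P0, X ⊆ V := by
      intro X hX i hi
      obtain ⟨h1, h2⟩ := mem_filter.1 hX
      rcases mem_insert.1 (hP X h1 hi) with h | h
      · rw [h] at hi; exact absurd hi h2
      · exact h
    have h1V : ∀ X ∈ P1, X ⊆ V := by
      intro X hX i hi
      obtain ⟨Y, hY, rfl⟩ := mem_image.1 hX
      obtain ⟨h1, h2⟩ := mem_erase.1 hi
      rcases mem_insert.1 (hP Y (mem_filter.1 hY).1 h2) with h | h
      · exact absurd h h1
      · exact h
    have hcard : P0.card + P1.card = P.card := by
      have h1 : P1.card = (P.filter fun X => v ∈ X).card := by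
        rw [hP1, card_image_of_injOn]
        intro X hX Y hY hXY
        have hX' := (mem_filter.1 (mem_coe.1 hX)).2
        have hY' := (mem_filter.1 (mem_coe.1 hY)).2
        simp only at hXY
        rw [← insert_erase hX', ← insert_erase hY', hXY]
      rw [h1, add_comm]
      exact card_filter_add_card_filter_not (s := P) (fun X => v ∈ X)
    have hvnot : ∀ X ⊆ V, v ∉ X := fun X hX h => hv (hX h)
    have hunion : (P0 ∪ P1).card < 2 ^ (D + 1) := by
      have := card_union_le P0 P1
      omega
    have hUV : ∀ X ∈ P0 ∪ P1, X ⊆ V := by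
      intro X hX
      rcases mem_union.1 hX with h | h
      · exact h0V X h
      · exact h1V X h
    -- a polynomial of smaller degree on the smaller half
    have hsmall : ∀ Q : Finset (Finset β), (∀ X ∈ Q, X ⊆ V) → 2 * Q.card ≤ P.card →
        ∀ w : Finset β → F, ∃ h : Finset β → F, (∀ S, h S ≠ 0 → S.card + 1 ≤ D) ∧
          ∀ X ∈ Q, ∑ S ∈ X.powerset, h S = w X := by
      intro Q hQ hQc w
      rcases Nat.eq_zero_or_pos D with hD | hD
      · subst hD
        have hQ0 : Q = ∅ := by
          rw [← card_eq_zero]
          norm_num at hc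
          omega
        exact ⟨0, fun S hS => absurd rfl hS, fun X hX => by rw [hQ0] at hX; simp at hX⟩
      · obtain ⟨D', rfl⟩ : ∃ D', D = D' + 1 := ⟨D - 1, by omega⟩
        obtain ⟨h, h1, h2⟩ := ih D' Q hQ (by
          have : 2 ^ (D' + 1 + 1) = 2 * 2 ^ (D' + 1) := by ring
          omega) w
        exact ⟨h, fun S hS => by have := h1 S hS; omega, h2⟩
    -- combination
    have hcomb : ∀ (g h : Finset β → F) (X : Finset β), v ∉ X →
        ∑ S ∈ X.powerset, (if v ∈ S then h (S.erase v) else g S) = ∑ S ∈ X.powerset, g S := by
      intro g h X hX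
      refine sum_congr rfl fun S hS => ?_
      rw [if_neg fun h => hX (mem_powerset.1 hS h)]
    have hcomb' : ∀ (g h : Finset β → F) (X : Finset β), v ∉ X →
        ∑ S ∈ (insert v X).powerset, (if v ∈ S then h (S.erase v) else g S) =
        ∑ S ∈ X.powerset, g S + ∑ S ∈ X.powerset, h S := by
      intro g h X hX
      rw [sum_powerset_insert hX]
      congr 1
      · exact hcomb g h X hX
      · refine sum_congr rfl fun S hS => ?_
        rw [if_pos (mem_insert_self _ _), erase_insert fun h => hX (mem_powerset.1 hS h)]
    have hP1mem : ∀ X ∈ P, v ∈ X → X.erase v ∈ P1 := fun X hX hvX =>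
      mem_image.2 ⟨X, mem_filter.2 ⟨hX, hvX⟩, rfl⟩
    rcases le_total P1.card P0.card with hle | hle
    · obtain ⟨g, hg1, hg2⟩ := ih D (P0 ∪ P1) hUV hunion
        (fun X => if X ∈ P0 then u X else u (insert v X))
      obtain ⟨h, hh1, hh2⟩ := hsmall P1 h1V (by omega)
        (fun X => u (insert v X) - ∑ S ∈ X.powerset, g S)
      refine ⟨fun S => if v ∈ S then h (S.erase v) else g S, ?_, ?_⟩
      · intro S hS
        by_cases hvS : v ∈ S
        · simp only [hvS, if_true] at hS
          have h1 := hh1 _ hS
          rw [card_erase_of_mem hvS] at h1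
          have h2 : 0 < S.card := card_pos.2 ⟨v, hvS⟩
          omega
        · simp only [hvS, if_false] at hS
          exact hg1 _ hS
      · intro X hX
        by_cases hvX : v ∈ X
        · have h1 : insert v (X.erase v) = X := insert_erase hvX
          have h2 : v ∉ X.erase v := notMem_erase v X
          have h3 := hcomb' g h (X.erase v) h2
          rw [h1] at h3
          rw [h3, hh2 _ (hP1mem X hX hvX), h1]
          ring
        · rw [hcomb g h X hvX]
          have h1 : X ∈ P0 := mem_filter.2 ⟨hX, hvX⟩
          rw [hg2 X (mem_union_left _ h1), if_pos h1]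
    · obtain ⟨g, hg1, hg2⟩ := ih D (P0 ∪ P1) hUV hunion
        (fun X => if X ∈ P1 then u (insert v X) else u X)
      obtain ⟨h, hh1, hh2⟩ := hsmall P0 h0V (by omega)
        (fun X => u X - ∑ S ∈ X.powerset, g S)
      refine ⟨fun S => if v ∈ S then (fun T => - h T) (S.erase v) else (fun T => g T + h T) S, ?_, ?_⟩
      · intro S hS
        by_cases hvS : v ∈ S
        · simp only [hvS, if_true] at hS
          have h1 := hh1 _ (neg_ne_zero.1 hS)
          rw [card_erase_of_mem hvS] at h1
          have h2 : 0 < S.card := card_pos.2 ⟨v, hvS⟩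
          omega
        · simp only [hvS, if_false] at hS
          by_cases hg : g S = 0
          · rw [hg, zero_add] at hS
            have h1 := hh1 _ hS
            omega
          · exact hg1 _ hg
      · intro X hX
        by_cases hvX : v ∈ X
        · have h1 : insert v (X.erase v) = X := insert_erase hvX
          have h2 : v ∉ X.erase v := notMem_erase v X
          have h3 := hcomb' (fun T => g T + h T) (fun T => - h T) (X.erase v) h2
          rw [h1] at h3
          rw [h3, sum_add_distrib, sum_neg_distrib]
          have h4 := hP1mem X hX hvX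
          rw [hg2 _ (mem_union_right _ h4), if_pos h4, h1]
          ring
        · refine (hcomb (fun T => g T + h T) (fun T => - h T) X hvX).trans ?_
          have h1 : X ∈ P0 := mem_filter.2 ⟨hX, hvX⟩
          rw [sum_add_distrib, hh2 X h1]
          ring

end Pool.Agent.Y806.SP
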