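import Pool.Agent.Y806.SP.G

/-!
# Random polynomials without homogeneous sets
-/

set_option autoImplicit false

namespace Pool.Agent.Y806.SP

open Finset

/-- interpolation at pairs of bit strings -/
theorem interp_pairs {p : ℕ} [Fact p.Prime] (m D : ℕ) (P : Finset (Finset (Fin m) × Finset (Fin m)))
    (hP : P.card < 2 ^ (D + 1)) (u : Finset (Fin m) × Finset (Fin m) → ZMod p) :
    ∃ g : Finset (Fin m) → Finset (Fin m) → ZMod p, (∀ A B, g A B ≠ 0 → A.card + B.card ≤ D) ∧
      ∀ x ∈ P, pv g x.1 x.2 = u x := by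
  classical
  let e : Finset (Fin m) × Finset (Fin m) → Finset (Fin m ⊕ Fin m) := fun x => x.1.disjSum x.2
  have he : Function.Injective e := by
    intro x y h
    have h1 := disjSum_inj.1 h
    exact Prod.ext h1.1 h1.2
  obtain ⟨a, h1, h2⟩ := interp (β := Fin m ⊕ Fin m) (F := ZMod p) univ D (P.image e)
    (fun X _ => subset_univ X) (by rw [card_image_of_injective _ he]; exact hP)
    (fun S => u (S.toLeft, S.toRight))
  refine ⟨fun A B => a (A.disjSum B), ?_, ?_⟩
  · intro A B h
    have := h1 _ h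
    rwa [card_disjSum] at this
  · intro x hx
    have h3 := h2 (e x) (mem_image_of_mem e hx)
    simp only [e, toLeft_disjSum, toRight_disjSum, Prod.mk.eta] at h3
    rw [← h3]
    unfold pv
    rw [← sum_product']
    refine sum_bij' (fun q _ => q.1.disjSum q.2) (fun S _ => (S.toLeft, S.toRight)) ?_ ?_ ?_ ?_ ?_
    · intro q hq
      obtain ⟨h4, h5⟩ := mem_product.1 hq
      rw [mem_powerset] at h4 h5 ⊢
      rw [subset_disjSum, toLeft_disjSum, toRight_disjSum]
      exact ⟨h4, h5⟩
    · intro S hS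
      rw [mem_powerset, subset_disjSum] at hS
      exact mem_product.2 ⟨mem_powerset.2 hS.1, mem_powerset.2 hS.2⟩
    · intro q _
      simp
    · intro S _
      exact toLeft_disjSum_toRight
    · intro q _
      rfl

/-- counting preimages -/
theorem card_preimage_le {G W : Type*} [AddCommGroup G] [AddCommGroup W] [Fintype G] [Fintype W]
    (φ : G →+ W) (hφ : Function.Surjective φ) (S : Finset W) [DecidablePred fun g => φ g ∈ S] :
    (univ.filter fun g => φ g ∈ S).card * Fintype.card W ≤ Fintype.card G * S.card := by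
  classical
  choose σ hσ using hφ
  have h : (univ.filter fun g => φ g ∈ S).card * Fintype.card W =
      ((univ.filter fun g => φ g ∈ S) ×ˢ (univ : Finset W)).card := by
    rw [card_product, card_univ]
  have h' : Fintype.card G * S.card = ((univ : Finset G) ×ˢ S).card := by
    rw [card_product, card_univ]
  rw [h, h']
  refine card_le_card_of_injOn (fun x => (x.1 + σ (x.2 - φ x.1), φ x.1)) ?_ ?_
  · intro x hx
    have := mem_product.1 (mem_coe.1 hx)
    exact mem_coe.2 (mem_product.2 ⟨mem_univ _, (mem_filter.1 this.1).2⟩)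
  · intro x _ y _ hxy
    simp only [Prod.mk.injEq] at hxy
    obtain ⟨h1, h2⟩ := hxy
    have h3 : x.2 = y.2 := by
      have h4 := congrArg φ h1
      rw [map_add, map_add, hσ, hσ] at h4
      simpa using h4
    have h5 : x.1 = y.1 := by
      rw [h3, h2] at h1
      exact add_right_cancel h1
    exact Prod.ext h5 h3

/-- pairs in increasing order -/
noncomputable def up {m : ℕ} (H : Finset (Finset (Fin m))) : Finset (Finset (Fin m) × Finset (Fin m)) :=
  (H ×ˢ H).filter fun x =>
    (Fintype.equivFin (Finset (Fin m)) x.1).1 < (Fintype.equivFin (Finset (Fin m)) x.2).1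

theorem up_card {m : ℕ} (H : Finset (Finset (Fin m))) : 2 * (up H).card = H.card * (H.card - 1) := by
  classical
  have h1 : H.offDiag = up H ∪ (up H).image Prod.swap := by
    ext x
    rw [mem_offDiag, mem_union, mem_image]
    constructor
    · rintro ⟨h1, h2, h3⟩
      have h4 : (Fintype.equivFin (Finset (Fin m)) x.1).1 ≠
          (Fintype.equivFin (Finset (Fin m)) x.2).1 := by
        intro h
        exact h3 ((Fintype.equivFin _).injective (Fin.ext h))
      rcases lt_or_gt_of_ne h4 with h5 | h5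
      · exact Or.inl (mem_filter.2 ⟨mem_product.2 ⟨h1, h2⟩, h5⟩)
      · exact Or.inr ⟨x.swap, mem_filter.2 ⟨mem_product.2 ⟨h2, h1⟩, h5⟩, Prod.swap_swap x⟩
    · rintro (h | ⟨y, h, rfl⟩)
      · obtain ⟨h1, h2⟩ := mem_filter.1 h
        obtain ⟨h3, h4⟩ := mem_product.1 h1
        exact ⟨h3, h4, fun h5 => by rw [h5] at h2; exact lt_irrefl _ h2⟩
      · obtain ⟨h1, h2⟩ := mem_filter.1 h
        obtain ⟨h3, h4⟩ := mem_product.1 h1
        exact ⟨h4, h3, fun h5 => by
          simp only [Prod.fst_swap, Prod.snd_swap] at h5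
          rw [h5] at h2; exact lt_irrefl _ h2⟩
  have h2 : Disjoint (up H) ((up H).image Prod.swap) := by
    rw [disjoint_left]
    intro x hx hx'
    obtain ⟨y, hy, rfl⟩ := mem_image.1 hx'
    have h3 := (mem_filter.1 hx).2
    have h4 := (mem_filter.1 hy).2
    simp only [Prod.fst_swap, Prod.snd_swap] at h3
    omega
  have h3 := congrArg Finset.card h1
  rw [card_union_of_disjoint h2, card_image_of_injective _ Prod.swap_injective, offDiag_card] at h3
  rw [Nat.mul_sub_one]
  omega

/-- the indices of the monomials of degree at most `D` -/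
abbrev Idx (m D : ℕ) : Type := {q : Finset (Fin m) × Finset (Fin m) // q.1.card + q.2.card ≤ D}

/-- the polynomial with given coefficients of degree at most `D` -/
def ext {p m D : ℕ} (g : Idx m D → ZMod p) (A B : Finset (Fin m)) : ZMod p :=
  if h : A.card + B.card ≤ D then g ⟨(A, B), h⟩ else 0

/-- its symmetrisation -/
def sym {p m D : ℕ} (g : Idx m D → ZMod p) (A B : Finset (Fin m)) : ZMod p :=
  ext g A B + ext g B A

section

variable {p m D : ℕ}

theorem ext_add (g g' : Idx m D → ZMod p) (A B : Finset (Fin m)) :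
    ext (g + g') A B = ext g A B + ext g' A B := by
  unfold ext
  split_ifs <;> simp

theorem pv_sym_add (g g' : Idx m D → ZMod p) (X Y : Finset (Fin m)) :
    pv (sym (g + g')) X Y = pv (sym g) X Y + pv (sym g') X Y := by
  unfold pv
  rw [← sum_add_distrib]
  refine sum_congr rfl fun A _ => ?_
  rw [← sum_add_distrib]
  refine sum_congr rfl fun B _ => ?_
  unfold sym
  rw [ext_add, ext_add]
  ring

theorem pv_sym (g : Idx m D → ZMod p) (X Y : Finset (Fin m)) :
    pv (sym g) X Y = pv (ext g) X Y + pv (ext g) Y X := by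
  unfold pv
  rw [sum_comm (s := Y.powerset), ← sum_add_distrib]
  refine sum_congr rfl fun A _ => ?_
  rw [← sum_add_distrib]
  rfl

theorem sym_comm (g : Idx m D → ZMod p) (A B : Finset (Fin m)) : sym g A B = sym g B A :=
  add_comm _ _

theorem sym_deg (g : Idx m D → ZMod p) (A B : Finset (Fin m)) (h : sym g A B ≠ 0) :
    A.card + B.card ≤ D := by
  by_contra hcon
  apply h
  unfold sym ext
  rw [dif_neg hcon, dif_neg (by rw [add_comm]; exact hcon), add_zero]

/-- the values at the pairs of members of `H` -/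
def vals (H : Finset (Finset (Fin m))) : (Idx m D → ZMod p) →+ (up H → ZMod p) where
  toFun := fun g x => pv (sym g) x.1.1 x.1.2
  map_zero' := by
    funext x
    have : sym (0 : Idx m D → ZMod p) = fun _ _ => 0 := by
      funext A B
      unfold sym ext
      split_ifs <;> simp
    rw [this]
    simp [pv]
  map_add' := fun g g' => by
    funext x
    exact pv_sym_add g g' _ _

theorem vals_surjective [Fact p.Prime] {k : ℕ} (hD : k * (k - 1) < 2 ^ (D + 1))
    (H : Finset (Finset (Fin m))) (hH : H.card = k) :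
    Function.Surjective (vals (p := p) (D := D) H) := by
  classical
  intro w
  obtain ⟨g, hg1, hg2⟩ := interp_pairs (p := p) m D H.offDiag
    (by
      rw [offDiag_card, hH]
      rw [Nat.mul_sub_one] at hD
      exact hD)
    (fun x => if h : x ∈ up H then w ⟨x, h⟩ else 0)
  refine ⟨fun q => g q.1.1 q.1.2, ?_⟩
  funext x
  have hext : ext (D := D) (fun q => g q.1.1 q.1.2) = g := by
    funext A B
    unfold ext
    by_cases h : A.card + B.card ≤ D
    · rw [dif_pos h]
    · rw [dif_neg h]
      by_contra h0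
      exact h (hg1 A B fun h1 => h0 h1.symm)
  refine (pv_sym (D := D) (fun q => g q.1.1 q.1.2) x.1.1 x.1.2).trans ?_
  rw [hext]
  have hx := mem_filter.1 x.2
  have hx' := mem_product.1 hx.1
  have hne : x.1.1 ≠ x.1.2 := fun h => by
    have h1 := hx.2
    rw [h] at h1
    exact lt_irrefl _ h1
  have e1 := hg2 x.1 (mem_offDiag.2 ⟨hx'.1, hx'.2, hne⟩)
  have e2 := hg2 (x.1.2, x.1.1) (mem_offDiag.2 ⟨hx'.2, hx'.1, hne.symm⟩)
  rw [dif_pos x.2] at e1
  have hnot : (x.1.2, x.1.1) ∉ up H := by
    intro h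
    have h1 := (mem_filter.1 h).2
    have h2 := hx.2
    simp only at h1
    omega
  rw [dif_neg hnot] at e2
  simp only at e2
  rw [e1, e2, add_zero]

theorem count_good [Fact p.Prime] {k : ℕ} (hD : k * (k - 1) < 2 ^ (D + 1)) (G0 : Finset (ZMod p))
    (H : Finset (Finset (Fin m))) (hH : H.card = k) :
    (univ.filter fun g : Idx m D → ZMod p => ∀ x : up H, pv (sym g) x.1.1 x.1.2 ∈ G0).card *
        p ^ (k * (k - 1) / 2) ≤
      Fintype.card (Idx m D → ZMod p) * G0.card ^ (k * (k - 1) / 2) := by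
  classical
  have hup : (up H).card = k * (k - 1) / 2 := by
    have := up_card H
    rw [hH] at this
    omega
  have h1 := card_preimage_le (vals (p := p) (D := D) H) (vals_surjective hD H hH)
    (Fintype.piFinset fun _ => G0)
  rw [Fintype.card_piFinset, prod_const, card_univ, Fintype.card_fun (α := up H), ZMod.card,
    Fintype.card_coe, hup] at h1
  refine le_trans (Nat.mul_le_mul_right _ (card_le_card ?_)) h1
  intro g hg
  refine mem_filter.2 ⟨mem_univ _, Fintype.mem_piFinset.2 ?_⟩
  exact (mem_filter.1 hg).2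

end

/-- **Random polynomials.** -/
theorem random_poly {p : ℕ} [Fact p.Prime] (m k D : ℕ) (hD : k * (k - 1) < 2 ^ (D + 1))
    (G1 G2 : Finset (ZMod p))
    (hc : (2 ^ m).choose k * (G1.card ^ (k * (k - 1) / 2) + G2.card ^ (k * (k - 1) / 2)) <
      p ^ (k * (k - 1) / 2)) :
    ∃ c : Finset (Fin m) → Finset (Fin m) → ZMod p, (∀ A B, c A B = c B A) ∧
      (∀ A B, c A B ≠ 0 → A.card + B.card ≤ D) ∧
      ∀ H : Finset (Finset (Fin m)), k ≤ H.card →
        ¬ (∀ X ∈ H, ∀ Y ∈ H, X ≠ Y → pv c X Y ∈ G1) ∧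
        ¬ (∀ X ∈ H, ∀ Y ∈ H, X ≠ Y → pv c X Y ∈ G2) := by
  classical
  by_contra hcon
  have hbad : ∀ g : Idx m D → ZMod p, ∃ H ∈ powersetCard k (univ : Finset (Finset (Fin m))),
      (∀ x : up H, pv (sym g) x.1.1 x.1.2 ∈ G1) ∨ (∀ x : up H, pv (sym g) x.1.1 x.1.2 ∈ G2) := by
    intro g
    have hex : ∃ H : Finset (Finset (Fin m)), k ≤ H.card ∧
        ((∀ X ∈ H, ∀ Y ∈ H, X ≠ Y → pv (sym g) X Y ∈ G1) ∨
          (∀ X ∈ H, ∀ Y ∈ H, X ≠ Y → pv (sym g) X Y ∈ G2)) := by
      by_contra h
      refine hcon ⟨sym g, sym_comm g, sym_deg g, fun H hH => ⟨fun h1 => h ⟨H, hH, Or.inl h1⟩,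
        fun h1 => h ⟨H, hH, Or.inr h1⟩⟩⟩
    obtain ⟨H, hHk, hH⟩ := hex
    obtain ⟨H', hH'H, hH'⟩ := exists_subset_card_eq hHk
    have hup : ∀ x : up H', x.1.1 ∈ H ∧ x.1.2 ∈ H ∧ x.1.1 ≠ x.1.2 := by
      intro x
      have hx := mem_filter.1 x.2
      have hx' := mem_product.1 hx.1
      refine ⟨hH'H hx'.1, hH'H hx'.2, fun h => ?_⟩
      have h1 := hx.2
      rw [h] at h1
      exact lt_irrefl _ h1
    refine ⟨H', mem_powersetCard.2 ⟨subset_univ _, hH'⟩, ?_⟩
    rcases hH with h1 | h1
    · exact Or.inl fun x => h1 _ (hup x).1 _ (hup x).2.1 (hup x).2.2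
    · exact Or.inr fun x => h1 _ (hup x).1 _ (hup x).2.1 (hup x).2.2
  have hcover : (univ : Finset (Idx m D → ZMod p)) ⊆
      (powersetCard k (univ : Finset (Finset (Fin m)))).biUnion fun H =>
        (univ.filter fun g : Idx m D → ZMod p => ∀ x : up H, pv (sym g) x.1.1 x.1.2 ∈ G1) ∪
        (univ.filter fun g : Idx m D → ZMod p => ∀ x : up H, pv (sym g) x.1.1 x.1.2 ∈ G2) := by
    intro g _
    obtain ⟨H, hH, h⟩ := hbad g
    refine mem_biUnion.2 ⟨H, hH, ?_⟩
    rcases h with h | h
    · exact mem_union_left _ (mem_filter.2 ⟨mem_univ _, h⟩)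
    · exact mem_union_right _ (mem_filter.2 ⟨mem_univ _, h⟩)
  have h1 := (card_le_card hcover).trans card_biUnion_le
  rw [card_univ] at h1
  set E := k * (k - 1) / 2 with hE
  set N := Fintype.card (Idx m D → ZMod p) with hN
  have hNpos : 0 < N := Fintype.card_pos
  have h2 : N * p ^ E ≤ (2 ^ m).choose k * (N * (G1.card ^ E + G2.card ^ E)) := by
    refine (Nat.mul_le_mul_right _ h1).trans ?_
    rw [sum_mul]
    have h3 : ∀ H ∈ powersetCard k (univ : Finset (Finset (Fin m))),
        ((univ.filter fun g : Idx m D → ZMod p => ∀ x : up H, pv (sym g) x.1.1 x.1.2 ∈ G1) ∪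
        (univ.filter fun g : Idx m D → ZMod p => ∀ x : up H, pv (sym g) x.1.1 x.1.2 ∈ G2)).card *
            p ^ E ≤ N * (G1.card ^ E + G2.card ^ E) := by
      intro H hH
      have hHk := (mem_powersetCard.1 hH).2
      refine (Nat.mul_le_mul_right _ (card_union_le _ _)).trans ?_
      rw [add_mul, mul_add]
      exact add_le_add (count_good hD G1 H hHk) (count_good hD G2 H hHk)
    refine (sum_le_sum h3).trans (le_of_eq ?_)
    rw [sum_const, smul_eq_mul, card_powersetCard, card_univ, Fintype.card_finset,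
      Fintype.card_fin]
  have h3 : N * p ^ E ≤ N * ((2 ^ m).choose k * (G1.card ^ E + G2.card ^ E)) := by
    refine h2.trans (le_of_eq ?_)
    ring
  exact absurd (Nat.le_of_mul_le_mul_left h3 hNpos) (not_le.2 hc)

end Pool.Agent.Y806.SP
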